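import Mathlib
import Pool.Agent.helper68.GB.Spec
import Pool.Agent.helper37.L5.Spec

/-!
# Project ZB (MP_baa4d7_al), BOUND-Z: `l(B)` is bounded for the blocks with a defect group `D` with a central subgroup `Z` of bounded index and rank; interface of the blocks N (helper58) and H in the T-FORM, ALL PRIMES `p`

Setting: `ZS p M D T x θ χ` of `helper68/GB/Spec` (`D` any defect group, `T ≤ Z(D)` normalised by `nz D` and strongly closed, `RtZ`). `ciT u = |C_A(u)|`, `iT = |A|`, `A = TT / (TT ⊓ cz T)` the group of automorphisms of `T` induced by `TT M D θ`, a `p'`-group (NTB, CIT). `PP` is the contribution of `helper12/BR/DefsR`.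
`bb p = 2` for `p = 2` and `1` otherwise; the Galois automorphisms used have exponent `≡ 1` modulo `p ^ bb p`.
-/

set_option autoImplicit false

namespace Pool.Agent.GB

open Pool.Agent.helper58.DC Pool.Agent.DI Pool.Agent.GR Pool.Agent.OB Pool.Agent.DR Pool.Agent.FI Pool.Agent.FI3 Pool.Agent.FI4 Pool.Agent.LE Pool.Agent.BR

/-- `2` for `p = 2`, `1` otherwise. -/
def bb (p : ℕ) : ℕ := if p = 2 then 2 else 1

/-- The exponent `m` of a Galois automorphism which fixes the roots of unity of order prime to `p` and generates the group of the Galois automorphisms of the `|G|_p`-th roots of unity with exponent `≡ 1` modulo `p ^ bb p`. -/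
structure GmB (p n m : ℕ) : Prop where
  cop : m.Coprime n
  reg : ∀ d : ℕ, d ∣ n → ¬ p ∣ d → m ≡ 1 [MOD d]
  one : p ∣ n → m ≡ 1 [MOD p]
  gen : ∀ s : ℕ, s ≡ 1 [MOD p ^ bb p] → ∃ j : ℕ, ∀ k : ℕ, p ^ k ∣ n → m ^ j ≡ s [MOD p ^ k]

section

variable {G : Type} [Group G]

/-- `|A|`. -/
noncomputable def iT (M : Ideal (integralClosure ℤ ℂ)) (D T : Subgroup G) (θ : G → ℂ) : ℕ := (cz T).relIndex (TT M D θ)

/-- The integer `|D : T| ^ 2 ∑_{u ∈ T} |C_A(u)| l(u) P_u(ψ, ψ')`. -/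
noncomputable def nlT (p : ℕ) (M : Ideal (integralClosure ℤ ℂ)) (D T : Subgroup G) (θ : G → ℂ) (l : T →* ℂˣ) (ψ ψ' : G → ℂ) : ℂ :=
  (T.relIndex D : ℂ) ^ 2 * ∑ᶠ u : T, ciT M D T θ u * (l u : ℂ) * PP p M θ ψ ψ' u

end

/-! ## 1. Block H, T-form -/

/-- **PS0P** (for the prime `p`). `ψ₀` is fixed by the Galois automorphisms with exponent `≡ 1` modulo `p ^ bb p`, and `|D| P_1(ψ, ψ₀)` is a rational integer not divisible by `p ^ (h + 1)`. -/
def PS0P (p : ℕ) : Prop :=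
  ∀ (M : Ideal (integralClosure ℤ ℂ)), Setup p M → ∀ (G : Type) [Group G] [Finite G]
    (D T : Subgroup G) (x : G) (θ χ : G → ℂ), ZS p M D T x θ χ → ∀ m : ℕ, GmB p (Nat.card G) m →
    ∃ ψ₀ ∈ Bl M (⊤ : Subgroup G) θ, PR m ψ₀ ∧ ∀ h : ℕ, iT M D T θ * T.relIndex D < p ^ (h + 1) → ∀ ψ ∈ Bl M (⊤ : Subgroup G) θ,
      ∃ N : ℤ, (Nat.card D : ℂ) * PP p M θ ψ ψ₀ 1 = (N : ℂ) ∧ ¬ ((p : ℤ) ^ (h + 1)) ∣ N

/-- **PROP** (for the prime `p`). Weighted sums of the orthogonal projections over the classes in `T`: for all weights `w` with `‖w u‖ ≤ 1` (`w` the indicator of a subgroup `K`, or a linear character `l` of `T`). Proof: `PP (t u t⁻¹) = PP u` for `t ∈ TT`, the class of `u` in `T` has `iT / ciT u` elements, so the sum is `∑_{classes [u]} (ciT u * ∑_{u' ∈ [u]} w u') * PP u`, the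
coefficients have absolute value at most `iT`, and the `PP u` of different classes are orthogonal projections with sum at most `1`. -/
def PROP (p : ℕ) : Prop :=
  ∀ (M : Ideal (integralClosure ℤ ℂ)), Setup p M → ∀ (G : Type) [Group G] [Finite G]
    (D T : Subgroup G) (x : G) (θ χ : G → ℂ), ZS p M D T x θ χ → ∀ w : G → ℂ, (∀ u, ‖w u‖ ≤ 1) →
    ∀ ψ₀ ∈ Bl M (⊤ : Subgroup G) θ,
    ∑ᶠ ψ ∈ Bl M (⊤ : Subgroup G) θ, ‖∑ᶠ u ∈ (T : Set G), ciT M D T θ u * w u * PP p M θ ψ ψ₀ u‖ ^ 2 ≤ ((iT M D T θ : ℝ)) ^ 2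

/-! ## 2. The output of block N (helper58) -/

/-- The exponent of the bound. -/
def FZ (p a r : ℕ) : ℕ := (r + 2) * (r * (r + 1) / 2 + 2 * (a + 2 * a * r)) + r * (bb p - 1)

/-- **BDP** (BOUND-Z for the prime `p`). `D` a defect group of the block of `χ` with a central subgroup `Z` of index at most `p ^ a` with at most `p ^ r` elements of order dividing `p`. -/
def BDP (p : ℕ) : Prop :=
  ∀ (M : Ideal (integralClosure ℤ ℂ)), Setup p M → ∀ a r : ℕ, 1 ≤ r → ∀ (G : Type) [Group G] [Finite G]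
    (D Z : Subgroup G) (x : G) (χ : G → ℂ), χ ∈ Irr G → DefAt p M χ D x → Z ≤ D → Z ≤ cz D → Nat.card D ≤ p ^ a * Nat.card Z →
    {u | u ∈ Z ∧ u ^ p = 1}.ncard ≤ p ^ r → ∃ l : ℕ, LL p M χ ⊤ = l ∧ 1 ≤ l ∧ l ≤ p ^ FZ p a r

/-- **BLP** (BOUND-Z for the prime `p`, blocks of subgroups `L`). -/
def BLP (p : ℕ) : Prop :=
  ∀ (M : Ideal (integralClosure ℤ ℂ)), Setup p M → ∀ a r : ℕ, 1 ≤ r → ∀ (G : Type) [Group G] [Finite G]
    (L D Z : Subgroup G) (x : G), ∀ ψ ∈ IrrOn L, DefL p M L ψ D x → Z ≤ D → Z ≤ cz D → Nat.card D ≤ p ^ a * Nat.card Z →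
    {u | u ∈ Z ∧ u ^ p = 1}.ncard ≤ p ^ r → ∃ l : ℕ, Pool.Agent.L5.Le p M L ψ = l ∧ 1 ≤ l ∧ l ≤ p ^ FZ p a r

end Pool.Agent.GB
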