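import Mathlib
import Pool.Agent.helper58.ZB.DefsN
import Pool.Agent.helper58.BR.SpecN

/-!
# Project ZB (MP_baa4d7_al), block N in the T-form: integrality, counting, `l(B) ≤ |X|` for every block, numerics. ALL PRIMES

RULES. File `Pool/Agent/<seat>/ZB/XXX.lean` with

  import Pool.Agent.helper58.ZB.SpecN
  set_option autoImplicit false
  namespace Pool.Agent.GB
  open Pool.Agent.helper58.DC Pool.Agent.DI Pool.Agent.GR Pool.Agent.OB Pool.Agent.DR Pool.Agent.FI Pool.Agent.FI3 Pool.Agent.FI4 Pool.Agent.LE Pool.Agent.BR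
  theorem XXX (hYYY : YYY_stmt) ... : XXX_stmt := ...
  end Pool.Agent.GB

auxiliary lemmas prefixed `XXX_`, no sorry, no double quotes in the file, no `convert`, no `congr!`. The rows named in the docstring are hypotheses (exact line in the lock note); all rows of the older specs (proved) may be added as further hypotheses at the end. Ambiguous names in full (for example `Pool.Agent.FI.TRN_stmt`).
Models: block N of BR (`helper58/BR/SpecN`, files `Pool/Agent/*/BR/{BPQ,CIN,CTP,ORS,PPL,PPX,CTR,BD3,RKI}.lean`).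
-/

set_option autoImplicit false

namespace Pool.Agent.GB

open Pool.Agent.helper58.DC Pool.Agent.DI Pool.Agent.GR Pool.Agent.OB Pool.Agent.DR Pool.Agent.FI Pool.Agent.FI3 Pool.Agent.FI4 Pool.Agent.LE Pool.Agent.BR

/-! ## 1. The group `TT / D cz D` is a `p'`-group -/

/-- **NTB** (medium; from DFZ, EXB, SBI, SYL, CLS, B2). Proof: `L = TT M D θ`, `C = cz D ≤ L` (`cz_le_TT`), `D ≤ L` (`D ≤ nz D`; `d ∈ D` commutes with `C`, so `funMap (MulAut.conj d) θ = θ`, as `θ` vanishes outside `C` and `C` is normalised by `D`). EXB (`Q = D`, `L ⊓ cz D = C`): `ψ ∈ IrrOn L` with `SB M L θ ψ`; DFZ: `x' ∈ C`, `DefL p M L ψ D x'`. `C` is normal in `L` (`L ≤ nz D`), so `cls L x'` is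
supported in `C`. `SB`: `cc ψ (cls L x')`, which is not `InM`, is congruent to `cc θ (cls L x')`. The latter is the sum over the `C`-classes contained in the `L`-class of `x'`; these are the classes of the `t x' t⁻¹`, `t ∈ L`, and `cc θ (cls C (t x' t⁻¹)) = cc (funMap (MulAut.conj t⁻¹) θ) (cls C x') ≡ cc θ (cls C x')` (`t⁻¹ ∈ TT`). So `cc θ (cls L x') ≡ k * cc θ (cls C x')` where `k` is the number of
these `C`-classes, and `p ∤ k`. `k * |Cz L x'| * |C| = |L| * |Cz C x'|` (sizes of the classes: `|L| / |Cz L x'| = k * |C| / |Cz C x'|`). (Without classes: `|C| * cc θ (cls L x') * |Cz L x'| = ∑_{t ∈ L} |Cz C x'| * cc θ (cls C (t x' t⁻¹))`.) `D` is a Sylow `p`-subgroup of `Cz L x'` (`DefL.card`), and `Cz C x' = C ⊓ Cz L x'` is normal in `Cz L x'`, so `D ⊓ C` is a Sylow `p`-subgroup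
of `Cz C x'`. Comparing `p`-parts: `|C|_p * |D| = |L|_p * |D ⊓ C|`, and `|D ⊔ C| * |D ⊓ C| = |D| * |C|` (`C` is normal in `L`). -/
def NTB_stmt : Prop :=
  ∀ (p : ℕ) (M : Ideal (integralClosure ℤ ℂ)), Setup p M → ∀ (G : Type) [Group G] [Finite G] (D : Subgroup G) (x : G) (θ χ : G → ℂ),
    RtZ p M D x θ χ → D ≤ TT M D θ ∧ ¬ p ∣ (D ⊔ cz D).relIndex (TT M D θ)

/-- **CIT** (short to medium; from NTB; pure group theory; model `helper59/BR/CIN.lean`). Proof: `T ≤ D`, `T ≤ cz D`: `D ≤ cz T`, `cz D ≤ cz T`. (1) `Cz TT 1 = TT`. (2) `(cz T).relIndex TT` divides `(D ⊔ cz D).relIndex TT` (`Subgroup.relIndex_dvd_of_le_left`). (3) `TT ⊓ cz T ≤ Cz TT u` for `u ∈ T`; `Cz TT (u ^ s) = Cz TT u` (`u` is a power of `u ^ s`, `T` is a `p`-group). (4) `c = (cz D).relIndex (TT ⊓ cz T)`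
(`cz D ≤ TT ⊓ cz T`), `|TT ⊓ cz T| = c * |cz D|`; `m = (D ⊔ cz D).relIndex TT`, `c * iT = (cz D).relIndex TT = m * (cz D).relIndex (D ⊔ cz D) = m * (D ⊓ cz D).relIndex D`, `k = iT * T.relIndex (D ⊓ cz D)`: `c * k = m * T.relIndex D`. -/
def CIT_stmt : Prop :=
  ∀ (p : ℕ) (M : Ideal (integralClosure ℤ ℂ)), Setup p M → ∀ (G : Type) [Group G] [Finite G] (D T : Subgroup G) (x : G) (θ χ : G → ℂ),
    ZS p M D T x θ χ → ciT M D T θ 1 = (iT M D T θ : ℂ) ∧ ¬ p ∣ iT M D T θ ∧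
    (∀ u ∈ T, (∃ k : ℕ, ciT M D T θ u = (k : ℂ)) ∧ ∀ s : ℕ, ¬ p ∣ s → ciT M D T θ (u ^ s) = ciT M D T θ u) ∧
    ∃ c k m : ℕ, c ≠ 0 ∧ ¬ p ∣ m ∧ c * k = m * T.relIndex D ∧ ∀ u : G, ci M D θ u = (c : ℂ) * ciT M D T θ u

/-! ## 2. Integrality -/

/-- **BPT** (short; from BPZ, CIT). Proof: CIT (4): `nlZ = c * |D : T| * S`, `S = ∑ ciT u * l u * PP u`, `nlT = |D : T| ^ 2 * S`, so `m * nlT = m * |D : T| * (|D : T| * S) = c * k * (|D : T| * S) = k * nlZ`, and `m` is prime to `p` (`IntAt.inv`, `InM.natCast`). -/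
def BPT_stmt : Prop :=
  ∀ (p : ℕ) (M : Ideal (integralClosure ℤ ℂ)), Setup p M → ∀ (G : Type) [Group G] [Finite G] (D T : Subgroup G) (x : G) (θ χ : G → ℂ),
    ZS p M D T x θ χ → ∀ l : T →* ℂˣ, ∀ ψ ∈ IrrOn (⊤ : Subgroup G), ∀ ψ' ∈ IrrOn (⊤ : Subgroup G), IntAt M (nlT p M D T θ l ψ ψ')

/-- **ZLG** (short; COPY of the proofs of ZL4, `helper43/LZ/ZL4.lean`, and ZL5, `helper23/LZ/ZL5.lean`, with `DefL p M L η D x'` as hypothesis instead of `lo.dfl`; from ZL2, ZL3, C3, B2, CVF). -/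
def ZLG_stmt : Prop :=
  ∀ (p : ℕ) (M : Ideal (integralClosure ℤ ℂ)), Setup p M → ∀ (G : Type) [Group G] [Finite G] (L D : Subgroup G) (x' : G),
    ∀ η ∈ IrrOn L, DefL p M L η D x' → ∀ η' ∈ IrrOn L, ∃ r : ℤ, (Nat.card D : ℂ) * EE p L η η' = (r : ℂ)

/-- **PPZ** (short to medium; from PPX, ZAX, QRS, QCE; model `helper27/LZ/ZPL.lean` and `helper89/BR/PPL.lean`: COPY). Proof: `K = Cz ⊤ u`. For `s` with `Cz ⊤ (u ^ s) = K`: PPX for `u ^ s`, ZAX for the central element `(u ^ s)⁻¹ = (u⁻¹) ^ s` of `K`: `N * PP (u ^ s) = ∑_{η, η' ∈ Bl M K θ} mt K ψ η * mt K ψ' η' * (η (u ^ s) / η 1) * (η' ((u⁻¹) ^ s) / η' 1) * (N * EE p K η' η)`;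
`η (u ^ s) / η 1 = ζ ^ (s e_η)`, `η' ((u⁻¹) ^ s) / η' 1 = ζ ^ (s e'_η')` (QCE, as in ZPL), `mt` natural numbers (QRS), `N * EE` integers. -/
def PPZ_stmt : Prop :=
  ∀ (p : ℕ) (M : Ideal (integralClosure ℤ ℂ)), Setup p M → ∀ (G : Type) [Group G] [Finite G] (θ : G → ℂ) (N : ℕ) (u : G),
    (∀ η ∈ Bl M (Cz (⊤ : Subgroup G) u) θ, ∀ η' ∈ IrrOn (Cz (⊤ : Subgroup G) u), ∃ r : ℤ, (N : ℂ) * EE p (Cz (⊤ : Subgroup G) u) η η' = (r : ℂ)) →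
    ∀ ψ ∈ IrrOn (⊤ : Subgroup G), ∀ ψ' ∈ IrrOn (⊤ : Subgroup G), ∀ n : ℕ, 0 < n → u ^ n = 1 → ∀ ζ : ℂ, IsPrimitiveRoot ζ n →
    ∃ P : Polynomial ℤ, ∀ s : ℕ, Cz (⊤ : Subgroup G) (u ^ s) = Cz (⊤ : Subgroup G) u →
      (N : ℂ) * PP p M θ ψ ψ' (u ^ s) = Polynomial.aeval (ζ ^ s) P

/-- **PLT** (short; from PPZ, ZLG, DFZ). Proof: `K = Cz ⊤ u`, `D ≤ K` (`u ∈ T ≤ cz D`), `cz D ≤ K` (`u ∈ D`). For `η ∈ Bl M K θ`: DFZ (`SB M K θ η`) gives `DefL p M K η D x'`, ZLG. PPZ with `N = |D|`; `Cz ⊤ (u ^ s) = Cz ⊤ u` for `s` prime to `p` (`u` is a `p`-element, a power of `u ^ s`). -/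
def PLT_stmt : Prop :=
  ∀ (p : ℕ) (M : Ideal (integralClosure ℤ ℂ)), Setup p M → ∀ (G : Type) [Group G] [Finite G] (D T : Subgroup G) (x : G) (θ χ : G → ℂ),
    ZS p M D T x θ χ → ∀ u ∈ T, ∀ ψ ∈ IrrOn (⊤ : Subgroup G), ∀ ψ' ∈ IrrOn (⊤ : Subgroup G), ∀ n : ℕ, 0 < n → u ^ n = 1 →
    ∀ ζ : ℂ, IsPrimitiveRoot ζ n → ∃ P : Polynomial ℤ, ∀ s : ℕ, ¬ p ∣ s → (Nat.card D : ℂ) * PP p M θ ψ ψ' (u ^ s) = Polynomial.aeval (ζ ^ s) P

/-- **BQT** (short to medium; from BPT, PLT, CIT, PRI, PDV; COPY of `helper87/BR/BPQ.lean` with `u : T`, `n = |T|`). Proof: `|D| * nlT = |D : T| ^ 2 * ∑_{u : T} k_u (l u) (|D| PP u) = Q(ζ)`, `ζ` a primitive `|T|`-th root of unity, an integer (PRI); `|D|` is a power of `p`: PDV with BPT. -/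
def BQT_stmt : Prop :=
  ∀ (p : ℕ) (M : Ideal (integralClosure ℤ ℂ)), Setup p M → ∀ (G : Type) [Group G] [Finite G] (D T : Subgroup G) (x : G) (θ χ : G → ℂ),
    ZS p M D T x θ χ → ∀ l : T →* ℂˣ, ∀ ψ ∈ IrrOn (⊤ : Subgroup G), ∀ ψ' ∈ IrrOn (⊤ : Subgroup G), ∃ n : ℤ, nlT p M D T θ l ψ ψ' = (n : ℂ)

/-! ## 3. Galois automorphisms, counting -/

/-- **GMB** (short; from GM2 and `GM4` of `helper12/NA`). Existence of `m`. (`bb p = 1` for `p` odd, `2` for `p = 2`; `Gm4` is in `helper12/NA/DefsP2`.) -/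
def GMB_stmt : Prop :=
  ∀ (p n : ℕ), p.Prime → 0 < n → ∃ m : ℕ, GmB p n m

/-- **PVB** (short; PORT of PIV, `Pool/Agent/*/BR/PIV.lean`, and of GP2, `Pool/Agent/*/LE/GP2.lean`). Proof: as PIV; first `ψ (u ^ s * v) = ψ (u * v)` for `PR m ψ`, `PEl p u`, `PReg p v`, `u v = v u`, `s ≡ 1 [MOD p ^ bb p]`: `gen` gives `j` with `m ^ j ≡ s` modulo the order of `u`, `m ^ j ≡ 1` modulo the order of `v` (`reg`), so `(u v) ^ (m ^ j) = u ^ s v`. `Cz ⊤ (u ^ s) = Cz ⊤ u` (`p ∤ s`). -/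
def PVB_stmt : Prop :=
  ∀ (p : ℕ) (M : Ideal (integralClosure ℤ ℂ)), Setup p M → ∀ (G : Type) [Group G] [Finite G] (θ : G → ℂ) (m : ℕ),
    GmB p (Nat.card G) m → ∀ ψ ∈ IrrOn (⊤ : Subgroup G), PR m ψ → ∀ ψ' ∈ IrrOn (⊤ : Subgroup G), PR m ψ' → ∀ u : G, PEl p u →
    ∀ s : ℕ, s ≡ 1 [MOD p ^ bb p] → PP p M θ ψ ψ' (u ^ s) = PP p M θ ψ ψ' u

/-- **ORB2** (short; pure; PORT of ORS, `helper57/BR/ORS.lean`, with `b = bb p`). Proof: as ORS with `σ l = l ^ (1 + p ^ b)`; `(1 + p ^ b) ^ p ^ h - 1 = p ^ (h + b) k`, `p ∤ k` (`b = 1`, `p` odd; `b = 2`, `p = 2`: induction on `h`). -/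
def ORB2_stmt : Prop :=
  ∀ p : ℕ, p.Prime → ∀ (h : ℕ) (Λ : Type) [CommGroup Λ] [Finite Λ], IsPGroup p Λ → ∀ f : Λ → ℤ,
    (∀ l, f (l ^ (1 + p ^ bb p)) = f l) → ((p : ℤ) ^ (h + 1)) ∣ ∑ᶠ l ∈ {l : Λ | l ^ p ^ (h + bb p) ≠ 1}, f l

/-- **CTL** (short; pure; from ORB2, PER; PORT of CTP, `helper6/BR/CTP.lean`). Proof: as CTP: the sum `A` of the `n l` over the `l` with `l = 1` on `K` is congruent to `N` modulo `p ^ (h + 1)`, so it is not `0`, and some `n l` is not `0`. -/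
def CTL_stmt : Prop :=
  ∀ p : ℕ, p.Prime → ∀ (h : ℕ) (D : Type) [CommGroup D] [Finite D], IsPGroup p D → ∀ K : Subgroup D,
    (∀ c : D, c ∈ K ↔ ∃ d : D, d ^ p ^ (h + bb p) = c) → ∀ (c : D → ℂ) (n : (D →* ℂˣ) → ℤ),
    (∀ l, ∑ᶠ u, c u * (l u : ℂ) = (n l : ℂ)) → (∀ u, c (u ^ (1 + p ^ bb p)) = c u) → ∀ N : ℤ, (Nat.card D : ℂ) * c 1 = (N : ℂ) →
    ¬ ((p : ℤ) ^ (h + 1)) ∣ N → ∃ l : D →* ℂˣ, (∀ k ∈ K, l k = 1) ∧ n l ≠ 0

/-- **CTT** (medium; from BQT, PVB, CIT, CTL, PER; model `helper58/BR/CTR.lean`). Counting, for a prime `p` with `PS0P p`, `PROP p`. Proof: `ψ₀` from PS0P. `T` is commutative (`T ≤ D`, `T ≤ cz D`; `ALT_inst`). For `ψ ∈ X`: `c u = |D : T| ^ 2 * (ciT u * PP ψ ψ₀ u)` on the type `T`, `n l` from BQT, `c (u ^ (1 + p ^ bb p)) = c u` (CIT, PVB), `|T| c 1 = |D : T| * iT * N'`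
(`|D| = |T| |D : T|`, `N' = |D| PP 1`), not divisible by `p ^ (h + 1)`: `|D : T| = p ^ b` (`D` is a `p`-group), `iT * p ^ b < p ^ (h - b + 1)`, so `p ^ (h - b + 1) ∤ N'` (PS0P for `h - b`), `p ∤ iT` (CIT). CTL for `K.subgroupOf T`: `l = 1` on `K` with `n l ≠ 0`, `1 ≤ ‖nlT l ψ ψ₀‖ ^ 2`. So `|X| ≤ ∑_{l = 1 on K} ∑_{ψ ∈ Bl} ‖nlT l ψ ψ₀‖ ^ 2`, and for each `l` the inner sum is at most
`|D : T| ^ 4 * iT ^ 2` (PROP with `w = lx T l`-like: `w u = l u` for `u ∈ T`, `0` otherwise, `‖l u‖ = 1`); there are `|T : K|` such `l` (PER). -/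
def CTT_stmt : Prop :=
  ∀ p : ℕ, PS0P p → PROP p → ∀ (M : Ideal (integralClosure ℤ ℂ)), Setup p M → ∀ (G : Type) [Group G] [Finite G]
    (D T : Subgroup G) (x : G) (θ χ : G → ℂ), ZS p M D T x θ χ → ∀ h : ℕ, iT M D T θ * T.relIndex D ^ 2 < p ^ (h + 1) →
    ∀ K : Subgroup G, (∀ c : G, c ∈ K ↔ ∃ d ∈ T, d ^ p ^ (h + bb p) = c) →
    ∀ m : ℕ, GmB p (Nat.card G) m →
    {ψ : G → ℂ | ψ ∈ Bl M (⊤ : Subgroup G) θ ∧ PR m ψ}.ncard ≤ K.relIndex T * (iT M D T θ * T.relIndex D ^ 2) ^ 2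

/-! ## 4. `l(B) ≤ |X|` for EVERY block (replaces CNL, whose proof needs `D` abelian) -/

/-- **LXQ** (short; pure). An exponent `q` with `g ^ q` the `p'`-part of `g`. Proof: `|G| = p ^ a n'`, `p ∤ n'`, `q = p ^ (a * totient n')` (`Nat.ModEq.pow_totient`): `q ≡ 1` modulo `n'`, `p ^ a ∣ q` if `a ≥ 1` (`totient n' ≥ 1`). For `p`-regular `v` the order of `v` divides `n'`, for a `p`-element `y` it divides `p ^ a`. -/
def LXQ_stmt : Prop :=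
  ∀ (p : ℕ), p.Prime → ∀ (G : Type) [Group G] [Finite G], ∃ q : ℕ, (∀ v : G, PReg p v → v ^ q = v) ∧ ∀ y : G, PEl p y → y ^ q = 1

/-- **LXA** (medium; from SPC of `helper24/BR/SpecA`, PPT of GR, `FRB`, `FRB_orb` of `helper68/BP/FRB`; compare the proof of BPM / LOZ, `helper70/BR`). `p`-integrality of the multiplicities of `g ↦ ψ' (g_(p'))`. Proof: PPT (`H = ⊤`): the sum over `g` is the sum over the pairs `(y, v)`, `y` a `p`-element, `v ∈ Cz ⊤ y` `p`-regular, `g = y v`, `ψ' (g ^ q) = ψ' v`. Exchange: `∑_{v p-regular} ψ' v * S v`,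
`S v = ∑_{y ∈ Cz ⊤ v, PEl p y} ψ ((y v)⁻¹)`. `FRB` for the group `H = Cz ⊤ v` (type), `f y = ψ ((y v)⁻¹)`: a class function of `H` (`v` is central in `H`), integral; for a `p`-subgroup `P` of `H` the mean of `f` over `P` is integral: SPC with `S = P` (mapped to `G`), `k = 1`, `c = v⁻¹`, substitute `u ↦ u⁻¹`. So `S v / |Cz ⊤ v|` is `IntAt`. `FRB_orb` for the conjugation action of `G` on the
`p`-regular `v` (`ψ'`, `S` are class functions; the stabiliser of `v` is `Cz ⊤ v`). -/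
def LXA_stmt : Prop :=
  ∀ (p : ℕ) (M : Ideal (integralClosure ℤ ℂ)), Setup p M → ∀ (G : Type) [Group G] [Finite G] (q : ℕ), (∀ v : G, PReg p v → v ^ q = v) →
    (∀ y : G, PEl p y → y ^ q = 1) → ∀ ψ ∈ IrrOn (⊤ : Subgroup G), ∀ ψ' ∈ IrrOn (⊤ : Subgroup G),
    IntAt M ((∑ᶠ g : G, ψ' (g ^ q) * ψ g⁻¹) / Nat.card G)

/-- **LXE** (short to medium; from QEI, EXP of GR, B2, STC). `a E = E`. Proof: let `f g = ψ'' g` for `p`-regular `g`, `0` otherwise: a class function; the coefficient of `ψ ∈ IrrOn ⊤` in `f` is `EE p ⊤ ψ'' ψ`, which is `0` for `ψ ∉ S` (QEI (2)); so `∑_{ψ ∈ S} EE p ⊤ ψ'' ψ * ψ g = f g` (completeness: EXP of GR, or second orthogonality). Complex conjugation (QEI (3), STC `conj (ψ g) = ψ g⁻¹`):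
`∑_{ψ ∈ S} EE p ⊤ ψ ψ'' * ψ g⁻¹ = ψ'' g⁻¹` for `p`-regular `g`, `0` otherwise. Multiply by `ψ' (g ^ q)` and sum over `g`: `g ^ q = g` for `p`-regular `g`. -/
def LXE_stmt : Prop :=
  ∀ (p : ℕ) (M : Ideal (integralClosure ℤ ℂ)), Setup p M → ∀ (G : Type) [Group G] [Finite G] (S : Set (G → ℂ)), BC M (⊤ : Subgroup G) S →
    ∀ q : ℕ, (∀ v : G, PReg p v → v ^ q = v) → ∀ ψ' ∈ S, ∀ ψ'' ∈ S,
    ∑ᶠ ψ ∈ S, ((∑ᶠ g : G, ψ' (g ^ q) * ψ g⁻¹) / Nat.card G) * EE p (⊤ : Subgroup G) ψ ψ'' = EE p (⊤ : Subgroup G) ψ' ψ''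

/-- **LXP** (short to medium; from ZT4 of `helper58/FI4/SpecC` (the powers of characters are characters), QEI, B2). The Galois permutation. Proof: `ψ_m g = ψ (g ^ m)`. ZT4 (`m` prime to `|G|`): `ψ_m ∈ IrrOn ⊤`. For `p`-regular `v`: `v ^ m = v` (`reg`), so `EE p ⊤ ψ_m ψ' = EE p ⊤ ψ ψ'`; in particular `EE p ⊤ ψ_m ψ = EE p ⊤ ψ ψ ≠ 0` (QEI (4)), so `ψ_m ∈ S` (QEI (2)). (3) `g ↦ g ^ m` is a permutation
of `G` (`m` prime to `|G|`), and `(g ^ m) ^ q = (g ^ q) ^ m = g ^ q` since `g ^ q` is `p`-regular (`g ^ q` is the `p'`-part). (4) `m ^ p ^ N ≡ 1` modulo `|G| = p ^ a n'` for large `N`: `m ≡ 1` modulo `n'` (`reg`) and modulo `p` (`one`), so `m ^ p ^ a ≡ 1` modulo `p ^ a`. -/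
def LXP_stmt : Prop :=
  ∀ (p : ℕ) (M : Ideal (integralClosure ℤ ℂ)), Setup p M → ∀ (G : Type) [Group G] [Finite G] (S : Set (G → ℂ)), BC M (⊤ : Subgroup G) S →
    ∀ m : ℕ, GmB p (Nat.card G) m →
    (∀ ψ ∈ S, (fun g => ψ (g ^ m)) ∈ S) ∧ (∀ ψ ψ' : G → ℂ, EE p (⊤ : Subgroup G) (fun g => ψ (g ^ m)) ψ' = EE p (⊤ : Subgroup G) ψ ψ') ∧
    (∀ q : ℕ, (∀ v : G, PReg p v → v ^ q = v) → (∀ y : G, PEl p y → y ^ q = 1) → ∀ ψ ψ' : G → ℂ,
      ∑ᶠ g : G, ψ' (g ^ q) * ψ (g⁻¹ ^ m) = ∑ᶠ g : G, ψ' (g ^ q) * ψ g⁻¹) ∧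
    ∃ N : ℕ, ∀ g : G, g ^ m ^ p ^ N = g

/-- **LXL** (short to medium; pure linear algebra; from ORP of `helper22/FI/SpecA` for the sum over the orbits, or directly). Proof: `W = range E` in `S → ℚ`; the trace of an idempotent is its rank `l = finrank W` (`LinearMap.IsIdempotentElem`, `LinearMap.IsProj.trace`; compare QIR, `helper27/FIB/QIR.lean`). CLAIM: the restriction `W → ({i // π i = i} → ℚ)` is injective, so `l ≤ |Fix π|`. Let `z ∈ W`, `z = E z`, `z = 0` on `Fix π`,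
`z ≠ 0`; multiply by a rational number: `z` has integer values, not all divisible by `p`. `z` is constant on the orbits of `π` (`E (π i) j = E i j`) and `z i = ∑_j a i j * z j` (`a E = E`). The function `j ↦ a i j * z j` is `π`-invariant, `IntAt`, and `0` on `Fix π`; the other orbits have length divisible by `p` (`π ^ p ^ N = 1`), so `z i` is `InM`, that is `p ∣ z i` (`InM.natCast`), for all `i`: a contradiction. -/
def LXL_stmt : Prop :=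
  ∀ (p : ℕ) (M : Ideal (integralClosure ℤ ℂ)), Setup p M → ∀ (S : Type) [Fintype S] [DecidableEq S] (π : Equiv.Perm S) (N : ℕ), π ^ p ^ N = 1 →
    ∀ (E : Matrix S S ℚ) (a : S → S → ℂ), E * E = E → (∀ i j, E (π i) j = E i j) → (∀ i j, IntAt M (a i j)) → (∀ i j, a i (π j) = a i j) →
    (∀ i j, ∑ k, a i k * (E k j : ℂ) = (E i j : ℂ)) → ∀ l : ℕ, E.trace = (l : ℚ) → l ≤ (Finset.univ.filter (fun i => π i = i)).card

/-- **LXG** (short to medium; from LXQ, LXA, LXE, LXP, LXL, QEI, ZL3, TPR). `l(B) ≤ |X|` for every block. Proof: `S = Blk M χ ⊤`, a union of blocks (`BC`; BLE or `Q1_BC`, TPR), finite. `E ψ ψ'` = the rational number `EE p ⊤ ψ ψ'` (ZL3), `E * E = E` (QEI (1)), the trace is `LL p M χ ⊤ = l` (definition of `LL`). `a ψ' ψ = |G|⁻¹ ∑_g ψ' (g ^ q) ψ g⁻¹` (LXA, LXE). `π` = the permutation `ψ ↦ ψ_m` of `S` (LXP (1), (4):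
injective on the finite set `S`, `π ^ p ^ N = 1`); `a ψ' ψ_m = a ψ' ψ` (LXP (3)). LXL; `π ψ = ψ` iff `PR m ψ`. -/
def LXG_stmt : Prop :=
  ∀ (p : ℕ) (M : Ideal (integralClosure ℤ ℂ)), Setup p M → ∀ (G : Type) [Group G] [Finite G] (χ : G → ℂ) (m : ℕ), GmB p (Nat.card G) m →
    ∀ l : ℕ, LL p M χ (⊤ : Subgroup G) = (l : ℂ) → l ≤ {ψ : G → ℂ | ψ ∈ Blk M χ (⊤ : Subgroup G) ∧ PR m ψ}.ncard

/-! ## 5. The bound -/

/-- **TSB** (short; pure; Mathlib). The group of the `q ^ 2`-th powers. Proof: in the type `D` the index of `Subgroup.center D` is `(D ⊓ cz D).relIndex D =: i`; `MonoidHom.transferCenterPow D : D →* center D` is `x ↦ x ^ i`; `q = i j`, so `x ↦ x ^ (q ^ 2) = (x ^ i) ^ (j q)` is the composition with the power map of the commutative group `center D`; `T` is the image in `G`. -/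
def TSB_stmt : Prop :=
  ∀ (G : Type) [Group G] [Finite G] (D : Subgroup G) (q : ℕ), (D ⊓ cz D).relIndex D ∣ q → ∃ T : Subgroup G, ∀ c : G, c ∈ T ↔ ∃ d ∈ D, d ^ (q ^ 2) = c

/-- **NMT** (short to medium; pure; from RKP; `ALT_inst`, `ALT_rho`, `ALT_card` of `helper95/LE/ALLT.lean`; model `helper23/BR/RKI.lean`). Numerics. Proof: (1) `Z ≤ D ⊓ cz D`, `|D : D ⊓ cz D| ≤ |D : Z| ≤ p ^ a` is a power of `p`. (2) `T ≤ Z`: `Z` is normal in `D` with index `p ^ b`, `b ≤ a`, so `d ^ p ^ a ∈ Z` (`Subgroup.pow_index_mem`). `T` contains the `p ^ (2 a)`-th powers of `Z`: `|D : T| ≤ |D : Z| |Z : Z ^ (p ^ (2 a))| ≤ p ^ a p ^ (2 a r)`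
(RKP for `Z`, commutative). (3) RKP for the abelian `p`-group `T` (`T ≤ Z`, so at most `p ^ r` elements of order dividing `p`) and the image of `R` in `MulAut T` (`R ≤ nz D ≤ nz T`; order `(cz T).relIndex R`: `ALT_card`). (4) RKP for `T`. -/
def NMT_stmt : Prop :=
  ∀ (p a r : ℕ), p.Prime → 1 ≤ r → ∀ (G : Type) [Group G] [Finite G] (D Z T : Subgroup G), IsPGroup p D → Z ≤ D → Z ≤ cz D →
    Nat.card D ≤ p ^ a * Nat.card Z → {u | u ∈ Z ∧ u ^ p = 1}.ncard ≤ p ^ r → (∀ c : G, c ∈ T ↔ ∃ d ∈ D, d ^ ((p ^ a) ^ 2) = c) →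
    (D ⊓ cz D).relIndex D ∣ p ^ a ∧ T.relIndex D ≤ p ^ (a + 2 * a * r) ∧
    (∀ R : Subgroup G, R ≤ nz D → ¬ p ∣ (cz T).relIndex R → (cz T).relIndex R < p ^ (r * (r + 1) / 2)) ∧
    ∀ (j : ℕ) (K : Subgroup G), (∀ c : G, c ∈ K ↔ ∃ d ∈ T, d ^ p ^ j = c) → K.relIndex T ≤ p ^ (r * j)

/-- **BDT** (short to medium; from CTT, LXG, GMB, CIT, CLZ, TSB, NMT, DGL, TPR, LLN). The bound. Proof: DGL (`L = ⊤`, `⊤ ⊓ cz D = cz D`; `DefL p M ⊤ χ D x`: TPR): `θ ∈ IrrOn (cz D)`, `SB M ⊤ θ χ`, so `Induces M θ χ` and `RtZ`. `T` from TSB with `q = p ^ a` (NMT (1)), `ZS` by CLZ. `m` from GMB. `l` from LLN (`χ ∈ Blk M χ ⊤`, so `1 ≤ l`). `Blk M χ ⊤ = Bl M ⊤ θ` (TPR, as in `helper49/BR/BD3.lean`).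
`l ≤ |X|` (LXG). `e = r (r + 1) / 2`, `t = a + 2 a r`, `h + 1 = e + 2 t ≥ 1`: `iT < p ^ e` (NMT (3), CIT (2)), `iT |D : T| ^ 2 < p ^ (h + 1)`. `K` = the image of the `p ^ (h + bb p)`-th powers of `T` (a subgroup: `T` is commutative), `|T : K| ≤ p ^ (r (h + bb p))`. CTT: `|X| ≤ p ^ (r (h + bb p)) * p ^ (2 (h + 1)) = p ^ FZ p a r` (`h + bb p = (h + 1) + (bb p - 1)`). -/
def BDT_stmt : Prop := ∀ p : ℕ, PS0P p → PROP p → BDP p

/-- **BLT** (short to medium; from BDT, TR1, TR2, TR3 of `helper59/FI4/SpecI`, TRE, TPR, CLS; model `helper37/NA/NBH.lean`, and `ZTK` of `helper7/ZB/SpecT` for the transfer of `DefL`). The bound for the blocks of subgroups: the group `L` as a type, `χ = rN L ψ ∈ Irr L`, `D.subgroupOf L`, `Z.subgroupOf L`, `DefAt p M χ (D.subgroupOf L) ⟨x, _⟩` (from `DefL`: central characters TR2, centralisers TR3, orders). `LL p M χ ⊤ = Le p M ⊤ χ = Le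 p M L ψ` (as in NBH). -/
def BLT_stmt : Prop := ∀ p : ℕ, BDP p → BLP p

end Pool.Agent.GB
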