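import Pool.Agent.helper58.ZB.SpecN
import Pool.Agent.helper95.LE.ALLT

set_option autoImplicit false

namespace Pool.Agent.GB

open Pool.Agent.helper58.DC Pool.Agent.DI Pool.Agent.GR Pool.Agent.OB Pool.Agent.DR Pool.Agent.FI Pool.Agent.FI3 Pool.Agent.FI4 Pool.Agent.LE Pool.Agent.BR

/-- the order of `D` -/
theorem BDT_card {G : Type} [Group G] [Finite G] {D Z : Subgroup G} (hZ : Z ≤ D) :
    Nat.card D = Nat.card Z * Z.relIndex D := by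
  have h1 := Subgroup.card_mul_index (Z.subgroupOf D)
  have h2 : Nat.card (Z.subgroupOf D) = Nat.card Z := by
    rw [← Nat.card_congr (Subgroup.subgroupOfEquivOfLe hZ).toEquiv.symm]
  rw [h2] at h1
  exact h1.symm

/-- the index of the centre -/
theorem BDT_idx {p a : ℕ} (hp : p.Prime) {G : Type} [Group G] [Finite G] {D Z : Subgroup G} (hpg : IsPGroup p D) (hZ : Z ≤ D)
    (hZc : Z ≤ cz D) (hcard : Nat.card D ≤ p ^ a * Nat.card Z) : (D ⊓ cz D).relIndex D ∣ p ^ a := by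
  have h1 : (D ⊓ cz D).relIndex D ∣ Z.relIndex D := Subgroup.relIndex_dvd_of_le_left _ (le_inf hZ hZc)
  refine h1.trans ?_
  obtain ⟨k, hk⟩ := (haveI : Fact p.Prime := ⟨hp⟩; IsPGroup.iff_card.1 hpg)
  have h2 : Z.relIndex D ∣ p ^ k := by
    rw [← hk]
    exact Subgroup.index_dvd_card _
  obtain ⟨b, -, hb⟩ := (Nat.dvd_prime_pow hp).1 h2
  rw [hb]
  refine pow_dvd_pow p ?_
  rw [BDT_card hZ, hb, mul_comm] at hcard
  have h3 : p ^ b ≤ p ^ a := Nat.le_of_mul_le_mul_right hcard Nat.card_pos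
  exact (Nat.pow_le_pow_iff_right hp.one_lt).1 h3

/-- the subgroup of the `n`-th powers of a commutative subgroup -/
def BDT_pw {G : Type} [Group G] (T : Subgroup G) (hcom : ∀ c ∈ T, ∀ d ∈ T, c * d = d * c) (n : ℕ) : Subgroup G where
  carrier := {c | ∃ d ∈ T, d ^ n = c}
  one_mem' := ⟨1, T.one_mem, one_pow n⟩
  mul_mem' := by
    rintro _ _ ⟨a, ha, rfl⟩ ⟨b, hb, rfl⟩
    exact ⟨a * b, T.mul_mem ha hb, Commute.mul_pow (hcom a ha b hb) n⟩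
  inv_mem' := by
    rintro _ ⟨a, ha, rfl⟩
    exact ⟨a⁻¹, T.inv_mem ha, inv_pow a n⟩

theorem BDT (hCTT : CTT_stmt) (hLXG : LXG_stmt) (hGMB : GMB_stmt) (hCIT : CIT_stmt) (hCLZ : CLZ_stmt) (hTSB : TSB_stmt)
    (hNMT : NMT_stmt) (hDGL : DGL_stmt) (hTPR : FI.TPR_stmt) (hLLN : LLN_stmt) : BDT_stmt := by
  classical
  intro p hPS0 hPRO M hS a r hr G _ _ D Z x χ hχ hdef hZD hZc hcard hZr
  have hp := hS.pr
  obtain ⟨hT1, hI, hDL, -, -⟩ := hTPR p M hS G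
  have hχT : χ ∈ IrrOn (⊤ : Subgroup G) := by
    rw [hT1]
    exact hχ
  obtain ⟨θ, hθ, hSB⟩ := hDGL p M hS G ⊤ χ hχT D x (hDL χ D x hdef)
  rw [top_inf_eq] at hθ
  have rt : RtZ p M D x θ χ := ⟨hχ, hdef, hθ, (hI θ χ).2 hSB⟩
  have hpg : IsPGroup p D := hdef.pgrp
  have hidx := BDT_idx hp hpg hZD hZc hcard
  obtain ⟨T, hT⟩ := hTSB G D (p ^ a) hidx
  have zs := hCLZ p M hS G D T x θ χ rt (p ^ a) hidx hT
  obtain ⟨-, hN2, hN3, hN4⟩ := hNMT p a r hp hr G D Z T hpg hZD hZc hcard hZr hT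
  obtain ⟨-, hci2, -, -⟩ := hCIT p M hS G D T x θ χ zs
  have hiT : iT M D T θ < p ^ (r * (r + 1) / 2) := hN3 (TT M D θ) (fun t ht => ht.1) hci2
  obtain ⟨m, hm⟩ := hGMB p (Nat.card G) hp Nat.card_pos
  obtain ⟨l, hl, hl1⟩ := hLLN p M hS G χ ⊤
  have hself : χ ∈ Blk M χ (⊤ : Subgroup G) := ⟨hχT, fun g => ⟨0, M.zero_mem, by simp⟩⟩
  have hlX := hLXG p M hS G χ m hm l hl
  have hBl : Blk M χ (⊤ : Subgroup G) = Bl M ⊤ θ := by
    ext ψ
    constructor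
    · rintro ⟨h1, h2⟩
      exact ⟨h1, ((hI ψ χ).1 h2).trans hSB.symm⟩
    · rintro ⟨h1, h2⟩
      exact ⟨h1, (hI ψ χ).2 (h2.trans hSB)⟩
  have hcom : ∀ c ∈ T, ∀ d ∈ T, c * d = d * c := fun c hc d hd =>
    ((Subgroup.mem_centralizer_iff.1 (zs.tcz hd)) c (zs.tle hc))
  obtain ⟨t, ht⟩ : ∃ t, t = a + 2 * a * r := ⟨_, rfl⟩
  obtain ⟨e, he⟩ : ∃ e, e = r * (r + 1) / 2 := ⟨_, rfl⟩
  have he1 : 1 ≤ e := by
    rw [he]
    have h1 : 1 * 2 ≤ r * (r + 1) := Nat.mul_le_mul hr (by omega)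
    omega
  obtain ⟨h, hh⟩ : ∃ h, h + 1 = e + 2 * t := ⟨e + 2 * t - 1, by omega⟩
  rw [← ht] at hN2
  rw [← he] at hiT
  have hI2 : iT M D T θ * T.relIndex D ^ 2 < p ^ (h + 1) := by
    calc iT M D T θ * T.relIndex D ^ 2 ≤ iT M D T θ * (p ^ t) ^ 2 := Nat.mul_le_mul_left _ (Nat.pow_le_pow_left hN2 2)
      _ < p ^ e * (p ^ t) ^ 2 := Nat.mul_lt_mul_of_pos_right hiT (pow_pos (pow_pos hp.pos t) 2)
      _ = p ^ (h + 1) := by
        rw [hh, ← pow_mul, ← pow_add]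
        congr 1
        ring
  have hmain := hCTT p hPS0 hPRO M hS G D T x θ χ zs h hI2 (BDT_pw T hcom (p ^ (h + bb p))) (fun c => Iff.rfl) m hm
  rw [← hBl] at hmain
  have hKi := hN4 (h + bb p) (BDT_pw T hcom (p ^ (h + bb p))) (fun c => Iff.rfl)
  refine ⟨l, hl, hl1 ⟨χ, hself⟩, hlX.trans (hmain.trans ?_)⟩
  calc (BDT_pw T hcom (p ^ (h + bb p))).relIndex T * (iT M D T θ * T.relIndex D ^ 2) ^ 2
      ≤ p ^ (r * (h + bb p)) * (p ^ (h + 1)) ^ 2 := Nat.mul_le_mul hKi (Nat.pow_le_pow_left hI2.le 2)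
    _ = p ^ FZ p a r := by
      rw [← pow_mul, ← pow_add]
      congr 1
      unfold FZ
      rw [← he, ← ht, ← hh]
      have hb : 1 ≤ bb p := by
        unfold bb
        split_ifs
        · norm_num
        · norm_num
      obtain ⟨c, hc⟩ : ∃ c, bb p = c + 1 := ⟨bb p - 1, by omega⟩
      rw [hc, Nat.add_sub_cancel]
      ring

end Pool.Agent.GB
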