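import Pool.Agent.helper58.ZB.SpecN
import Pool.Agent.helper95.LE.ALLT

set_option autoImplicit false

namespace Pool.Agent.GB

open Pool.Agent.helper58.DC Pool.Agent.DI Pool.Agent.GR Pool.Agent.OB Pool.Agent.DR Pool.Agent.FI Pool.Agent.FI3 Pool.Agent.FI4 Pool.Agent.LE Pool.Agent.BR

theorem CTT_bb_pos (p : ℕ) : 1 ≤ bb p := by
  unfold bb
  split_ifs
  · norm_num
  · norm_num

/-- there is a linear character, trivial on `K`, with `nlT` not zero -/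
theorem CTT_ex (hBQT : BQT_stmt) (hPVB : PVB_stmt) (hCIT : CIT_stmt) (hCTL : CTL_stmt)
    {p : ℕ} {M : Ideal (integralClosure ℤ ℂ)} (hS : Setup p M) {G : Type} [Group G] [Finite G]
    {D T : Subgroup G} {x : G} {θ χ : G → ℂ} (zs : ZS p M D T x θ χ) {h : ℕ} {K : Subgroup G}
    (hcom : ∀ c ∈ T, ∀ d ∈ T, c * d = d * c)
    (hK : ∀ c : G, c ∈ K ↔ ∃ d ∈ T, d ^ p ^ (h + bb p) = c) {m : ℕ} (hm : GmB p (Nat.card G) m)
    {ψ ψ₀ : G → ℂ} (hψ : ψ ∈ Bl M (⊤ : Subgroup G) θ) (hψm : PR m ψ) (hψ₀ : ψ₀ ∈ Bl M (⊤ : Subgroup G) θ) (hψ₀m : PR m ψ₀)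
    {b : ℕ} (hb : T.relIndex D = p ^ b) (hbh : b ≤ h)
    {N : ℤ} (hN : (Nat.card D : ℂ) * PP p M θ ψ ψ₀ 1 = (N : ℂ)) (hNp : ¬ ((p : ℤ) ^ (h - b + 1)) ∣ N) :
    ∃ l : T →* ℂˣ, (∀ k ∈ K.subgroupOf T, l k = 1) ∧ 1 ≤ ‖nlT p M D T θ l ψ ψ₀‖ ^ 2 := by
  classical
  have hp := hS.pr
  have hpgD : IsPGroup p D := zs.rt.dfa.pgrp
  have hpg : IsPGroup p T := hpgD.to_le zs.tle
  have hKT : K ≤ T := by
    intro y hy
    obtain ⟨d, hd, rfl⟩ := (hK y).1 hy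
    exact T.pow_mem hd _
  letI := ALT_inst T hcom
  obtain ⟨hci1, hci2, hci3, -⟩ := hCIT p M hS G D T x θ χ zs
  have hPEl : ∀ u ∈ T, PEl p u := by
    intro u hu
    obtain ⟨k, hk⟩ := hpg ⟨u, hu⟩
    exact ⟨k, congrArg (fun d : T => (d : G)) hk⟩
  have hn : ∀ l : T →* ℂˣ, ∃ n : ℤ, nlT p M D T θ l ψ ψ₀ = (n : ℂ) := fun l =>
    hBQT p M hS G D T x θ χ zs l ψ hψ.1 ψ₀ hψ₀.1
  choose n hn using hn
  have hpb : ¬ p ∣ 1 + p ^ bb p := by
    intro h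
    have h1 : p ∣ p ^ bb p := dvd_pow_self p (by have := CTT_bb_pos p; omega)
    have h2 : p ∣ 1 := (Nat.dvd_add_left h1).1 h
    exact hp.one_lt.ne' (Nat.dvd_one.1 h2)
  have hcard : (Nat.card D : ℂ) = (Nat.card T : ℂ) * (T.relIndex D : ℂ) := by
    have h1 := Subgroup.card_mul_index (T.subgroupOf D)
    have h2 : Nat.card (T.subgroupOf D) = Nat.card T := by
      rw [← Nat.card_congr (Subgroup.subgroupOfEquivOfLe zs.tle).toEquiv.symm]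
    rw [h2] at h1
    rw [← h1]
    push_cast
    rfl
  obtain ⟨l, hl1, hl2⟩ := hCTL p hp h T hpg (K.subgroupOf T) (fun c => by
      rw [Subgroup.mem_subgroupOf, hK]
      constructor
      · rintro ⟨d, hd, e⟩
        exact ⟨⟨d, hd⟩, Subtype.ext e⟩
      · rintro ⟨d, e⟩
        exact ⟨d, d.2, congrArg (fun d : T => (d : G)) e⟩)
    (fun u => (T.relIndex D : ℂ) ^ 2 * (ciT M D T θ u * PP p M θ ψ ψ₀ u)) n (fun l => by
      rw [← hn l]
      unfold nlT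
      rw [mul_finsum]
      refine finsum_congr fun u => ?_
      ring) (fun u => by
      have h2 := (hci3 u u.2).2 (1 + p ^ bb p) hpb
      have h3 := hPVB p M hS G θ m hm ψ hψ.1 hψm ψ₀ hψ₀.1 hψ₀m u (hPEl u u.2) (1 + p ^ bb p) (by
        show (1 + p ^ bb p) % p ^ bb p = 1 % p ^ bb p
        simp)
      show (T.relIndex D : ℂ) ^ 2 * (ciT M D T θ ((u : G) ^ (1 + p ^ bb p)) * PP p M θ ψ ψ₀ ((u : G) ^ (1 + p ^ bb p))) = _
      rw [h2, h3]) ((p ^ b : ℕ) * ((iT M D T θ : ℤ) * N)) (by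
      show (Nat.card T : ℂ) * ((T.relIndex D : ℂ) ^ 2 * (ciT M D T θ 1 * PP p M θ ψ ψ₀ 1)) = _
      rw [hci1]
      push_cast
      rw [← hN, hcard, hb]
      push_cast
      ring) (by
      intro h1
      apply hNp
      have h2 : ((p : ℤ) ^ (h + 1)) = (p : ℤ) ^ b * (p : ℤ) ^ (h - b + 1) := by
        rw [← pow_add]
        congr 1
        omega
      rw [h2] at h1
      push_cast at h1
      have h3 := (mul_dvd_mul_iff_left (pow_ne_zero b (by exact_mod_cast hp.ne_zero : (p : ℤ) ≠ 0))).1 h1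
      have h4 : IsCoprime ((p : ℤ) ^ (h - b + 1)) (iT M D T θ : ℤ) := by
        apply IsCoprime.pow_left
        rw [Int.isCoprime_iff_gcd_eq_one, Int.gcd_natCast_natCast]
        exact (Nat.Prime.coprime_iff_not_dvd hp).2 hci2
      exact h4.dvd_of_dvd_mul_left h3)
  refine ⟨l, hl1, ?_⟩
  rw [hn l, Complex.norm_intCast, sq_abs]
  have h6 : (1 : ℤ) ≤ n l ^ 2 := by
    have := sq_pos_of_ne_zero hl2
    omega
  exact_mod_cast h6

/-- the sum over the block of the squares of the `nlT` -/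
theorem CTT_sum {p : ℕ} (hPRO : PROP p) {M : Ideal (integralClosure ℤ ℂ)} (hS : Setup p M) {G : Type} [Group G] [Finite G]
    {D T : Subgroup G} {x : G} {θ χ : G → ℂ} (zs : ZS p M D T x θ χ) {ψ₀ : G → ℂ} (hψ₀ : ψ₀ ∈ Bl M (⊤ : Subgroup G) θ)
    (l : T →* ℂˣ) :
    ∑ᶠ ψ ∈ Bl M (⊤ : Subgroup G) θ, ‖nlT p M D T θ l ψ ψ₀‖ ^ 2 ≤ ((T.relIndex D : ℝ) ^ 2 * (iT M D T θ : ℝ)) ^ 2 := by
  classical
  have hfin : (Bl M (⊤ : Subgroup G) θ).Finite := (IrrOn_fin (⊤ : Subgroup G)).subset fun φ h => h.1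
  have hw : ∀ u, ‖lx T l u‖ ≤ 1 := by
    intro u
    unfold lx
    split_ifs with hu
    · have h1 : ((l ⟨u, hu⟩ : ℂˣ) : ℂ) ^ Nat.card T = 1 := by
        rw [← Units.val_pow_eq_pow_val, ← map_pow, pow_card_eq_one', map_one]
        rfl
      have h2 : ‖((l ⟨u, hu⟩ : ℂˣ) : ℂ)‖ = 1 := Complex.norm_eq_one_of_pow_eq_one h1 Nat.card_pos.ne'
      exact h2.le
    · simp
  have h := hPRO M hS G D T x θ χ zs (lx T l) hw ψ₀ hψ₀
  have hnl : ∀ ψ : G → ℂ, nlT p M D T θ l ψ ψ₀ =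
      (T.relIndex D : ℂ) ^ 2 * ∑ᶠ u ∈ (T : Set G), ciT M D T θ u * lx T l u * PP p M θ ψ ψ₀ u := by
    intro ψ
    unfold nlT
    congr 1
    have h1 : ∑ᶠ u ∈ (T : Set G), ciT M D T θ u * lx T l u * PP p M θ ψ ψ₀ u =
        ∑ᶠ u : ((T : Set G) : Type), ciT M D T θ (u : G) * lx T l (u : G) * PP p M θ ψ ψ₀ (u : G) :=
      (finsum_set_coe_eq_finsum_mem (T : Set G)).symm
    rw [h1]
    refine finsum_congr fun u => ?_
    have h2 : lx T l ((u : T) : G) = ((l u : ℂˣ) : ℂ) := by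
      unfold lx
      rw [dif_pos u.2]
    rw [← h2]
  rw [finsum_mem_eq_finite_toFinset_sum _ hfin] at h ⊢
  calc ∑ ψ ∈ hfin.toFinset, ‖nlT p M D T θ l ψ ψ₀‖ ^ 2
      = ∑ ψ ∈ hfin.toFinset, ((T.relIndex D : ℝ) ^ 2) ^ 2 *
        ‖∑ᶠ u ∈ (T : Set G), ciT M D T θ u * lx T l u * PP p M θ ψ ψ₀ u‖ ^ 2 := by
        refine Finset.sum_congr rfl fun ψ _ => ?_
        rw [hnl ψ, norm_mul, norm_pow, Complex.norm_natCast, mul_pow]
    _ = ((T.relIndex D : ℝ) ^ 2) ^ 2 * ∑ ψ ∈ hfin.toFinset,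
        ‖∑ᶠ u ∈ (T : Set G), ciT M D T θ u * lx T l u * PP p M θ ψ ψ₀ u‖ ^ 2 := by
        rw [Finset.mul_sum]
    _ ≤ ((T.relIndex D : ℝ) ^ 2) ^ 2 * (iT M D T θ : ℝ) ^ 2 := mul_le_mul_of_nonneg_left h (by positivity)
    _ = _ := by ring

theorem CTT (hBQT : BQT_stmt) (hPVB : PVB_stmt) (hCIT : CIT_stmt) (hCTL : CTL_stmt) (hPER : PER_stmt) : CTT_stmt := by
  classical
  intro p hPS0 hPRO M hS G _ _ D T x θ χ zs h hI K hK m hm
  have hp := hS.pr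
  obtain ⟨ψ₀, hψ₀, hψ₀m, hP⟩ := hPS0 M hS G D T x θ χ zs m hm
  have hcom : ∀ c ∈ T, ∀ d ∈ T, c * d = d * c := fun c hc d hd =>
    ((Subgroup.mem_centralizer_iff.1 (zs.tcz hd)) c (zs.tle hc))
  have hKT : K ≤ T := by
    intro y hy
    obtain ⟨d, hd, rfl⟩ := (hK y).1 hy
    exact T.pow_mem hd _
  have hpgD : IsPGroup p D := zs.rt.dfa.pgrp
  obtain ⟨-, hci2, -, -⟩ := hCIT p M hS G D T x θ χ zs
  have hiT : 1 ≤ iT M D T θ := by
    rcases Nat.eq_zero_or_pos (iT M D T θ) with h0 | h0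
    · exact absurd (h0 ▸ dvd_zero p) hci2
    · exact h0
  obtain ⟨b, hb⟩ : ∃ b, T.relIndex D = p ^ b := by
    obtain ⟨k, hk⟩ := (haveI : Fact p.Prime := ⟨hp⟩; IsPGroup.iff_card.1 hpgD)
    have h1 : T.relIndex D ∣ p ^ k := by
      rw [← hk]
      exact Subgroup.index_dvd_card _
    obtain ⟨b, -, hb⟩ := (Nat.dvd_prime_pow hp).1 h1
    exact ⟨b, hb⟩
  have hbh : 2 * b ≤ h := by
    rw [hb, ← pow_mul] at hI
    have h1 : p ^ (b * 2) < p ^ (h + 1) := lt_of_le_of_lt (Nat.le_mul_of_pos_left _ hiT) hI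
    have h2 := (Nat.pow_lt_pow_iff_right hp.one_lt).1 h1
    omega
  have hI2 : iT M D T θ * T.relIndex D < p ^ (h - b + 1) := by
    rw [hb] at hI ⊢
    have h1 : p ^ (h + 1) = p ^ (h - b + 1) * p ^ b := by
      rw [← pow_add]
      congr 1
      omega
    rw [h1, pow_two, ← mul_assoc] at hI
    exact lt_of_mul_lt_mul_right hI (Nat.zero_le _)
  letI := ALT_inst T hcom
  obtain ⟨hP1, -⟩ := hPER T (K.subgroupOf T)
  have hidx0 : (K.subgroupOf T).index ≠ 0 := Subgroup.index_ne_zero_of_finite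
  have hfS : {l : T →* ℂˣ | ∀ u ∈ K.subgroupOf T, l u = 1}.Finite := by
    have h2 : Nat.card {w : T →* ℂˣ // ∀ u ∈ K.subgroupOf T, w u = 1} ≠ 0 := by
      rw [hP1]
      exact hidx0
    exact Set.finite_coe_iff.1 (Nat.finite_of_card_ne_zero h2)
  obtain ⟨F, hF⟩ : ∃ F, F = hfS.toFinset := ⟨_, rfl⟩
  have hmem : ∀ l : T →* ℂˣ, l ∈ F ↔ ∀ u ∈ K.subgroupOf T, l u = 1 := by
    intro l
    rw [hF]
    simp
  have hcard : F.card = K.relIndex T := by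
    have h1 : F.card = Nat.card {l : T →* ℂˣ | ∀ u ∈ K.subgroupOf T, l u = 1} := by
      rw [hF, ← Set.ncard_eq_toFinset_card _ hfS]
      rfl
    rw [h1]
    exact hP1
  have hfin : (Bl M (⊤ : Subgroup G) θ).Finite := (IrrOn_fin (⊤ : Subgroup G)).subset fun φ h => h.1
  have hX : {ψ : G → ℂ | ψ ∈ Bl M (⊤ : Subgroup G) θ ∧ PR m ψ} = ((hfin.toFinset.filter (fun ψ => PR m ψ) : Finset (G → ℂ)) : Set (G → ℂ)) := by
    ext ψ
    simp
  rw [hX, Set.ncard_coe_finset]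
  have h1 : ((hfin.toFinset.filter (fun ψ => PR m ψ)).card : ℝ) ≤ ((K.relIndex T * (iT M D T θ * T.relIndex D ^ 2) ^ 2 : ℕ) : ℝ) := by
    calc ((hfin.toFinset.filter (fun ψ => PR m ψ)).card : ℝ)
        = ∑ ψ ∈ hfin.toFinset.filter (fun ψ => PR m ψ), (1 : ℝ) := by simp
      _ ≤ ∑ ψ ∈ hfin.toFinset.filter (fun ψ => PR m ψ), ∑ l ∈ F, ‖nlT p M D T θ l ψ ψ₀‖ ^ 2 := by
          refine Finset.sum_le_sum fun ψ hψ => ?_
          obtain ⟨hψ1, hψ2⟩ := Finset.mem_filter.1 hψ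
          have hψ3 : ψ ∈ Bl M (⊤ : Subgroup G) θ := (Set.Finite.mem_toFinset hfin).1 hψ1
          obtain ⟨N, hN, hNp⟩ := hP (h - b) hI2 ψ hψ3
          obtain ⟨l, hl1, hl2⟩ := CTT_ex hBQT hPVB hCIT hCTL hS zs hcom hK hm hψ3 hψ2 hψ₀ hψ₀m hb (by omega) hN hNp
          refine le_trans hl2 ?_
          exact Finset.single_le_sum (f := fun l => ‖nlT p M D T θ l ψ ψ₀‖ ^ 2) (fun l _ => by positivity) ((hmem l).2 hl1)
      _ ≤ ∑ ψ ∈ hfin.toFinset, ∑ l ∈ F, ‖nlT p M D T θ l ψ ψ₀‖ ^ 2 := by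
          refine Finset.sum_le_sum_of_subset_of_nonneg (Finset.filter_subset _ _) fun ψ _ _ => ?_
          exact Finset.sum_nonneg fun l _ => by positivity
      _ = ∑ l ∈ F, ∑ ψ ∈ hfin.toFinset, ‖nlT p M D T θ l ψ ψ₀‖ ^ 2 := Finset.sum_comm
      _ ≤ ∑ l ∈ F, ((T.relIndex D : ℝ) ^ 2 * (iT M D T θ : ℝ)) ^ 2 := by
          refine Finset.sum_le_sum fun l _ => ?_
          have h2 := CTT_sum hPRO hS zs hψ₀ l
          rwa [finsum_mem_eq_finite_toFinset_sum _ hfin] at h2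
      _ = ((K.relIndex T * (iT M D T θ * T.relIndex D ^ 2) ^ 2 : ℕ) : ℝ) := by
          rw [Finset.sum_const, hcard, nsmul_eq_mul]
          push_cast
          ring
  exact_mod_cast h1

end Pool.Agent.GB
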