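import Pool.Agent.helper58.ZB.SpecN

set_option autoImplicit false

namespace Pool.Agent.GB

open Pool.Agent.helper58.DC Pool.Agent.DI Pool.Agent.GR Pool.Agent.OB Pool.Agent.DR Pool.Agent.FI Pool.Agent.FI3 Pool.Agent.FI4 Pool.Agent.LE Pool.Agent.BR

theorem LXL_int {p : ℕ} {M : Ideal (integralClosure ℤ ℂ)} (hS : Setup p M) (y : ℤ) (h : InM M (y : ℂ)) : (p : ℤ) ∣ y := by
  rcases Int.eq_nat_or_neg y with ⟨n, rfl | rfl⟩
  · rw [Int.cast_natCast] at h
    exact Int.natCast_dvd_natCast.2 ((InM.natCast hS n).1 h)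
  · rw [Int.cast_neg, Int.cast_natCast] at h
    have h1 := h.neg
    rw [neg_neg] at h1
    exact (Int.natCast_dvd_natCast.2 ((InM.natCast hS n).1 h1)).neg_right

theorem LXL_inv {S : Type} (π : Equiv.Perm S) (w : S → ℂ) (hw : ∀ x, w (π x) = w x) (r : Subgroup.zpowers π) (x : S) :
    w (r • x) = w x := by
  obtain ⟨σ, hσ⟩ := r
  obtain ⟨n, rfl⟩ := Subgroup.mem_zpowers_iff.1 hσ
  show w ((π ^ n) x) = w x
  induction n with
  | zero => rfl
  | succ n ih =>
    have h1 := ih ⟨n, rfl⟩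
    rw [← h1, ← hw ((π ^ (n : ℤ)) x)]
    congr 1
    rw [add_comm, zpow_add, zpow_one]
    rfl
  | pred n ih =>
    have h1 := ih ⟨_, rfl⟩
    rw [← h1]
    rw [← hw ((π ^ (-(n : ℤ) - 1)) x)]
    congr 1
    have h2 : π ^ (-(n : ℤ)) = π * π ^ (-(n : ℤ) - 1) := by
      rw [← zpow_one_add]
      congr 1
      ring
    rw [h2]
    rfl

/-- the divisibility -/
theorem LXL_dvd (hORP : ORP_stmt) {p : ℕ} {M : Ideal (integralClosure ℤ ℂ)} (hS : Setup p M) {S : Type} [Fintype S] [DecidableEq S]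
    (π : Equiv.Perm S) (N : ℕ) (hπ : π ^ p ^ N = 1) (E : Matrix S S ℚ) (a : S → S → ℂ) (hE : ∀ i j, E (π i) j = E i j)
    (ha : ∀ i j, IntAt M (a i j)) (haπ : ∀ i j, a i (π j) = a i j) (haE : ∀ i j, ∑ k, a i k * (E k j : ℂ) = (E i j : ℂ))
    (y : S → ℤ) (hy : ∀ i, ∑ j, E i j * (y j : ℚ) = (y i : ℚ)) (hy0 : ∀ i, π i = i → y i = 0) (i : S) : (p : ℤ) ∣ y i := by
  classical
  have hyπ : ∀ j, y (π j) = y j := by
    intro j
    have h1 : (y (π j) : ℚ) = (y j : ℚ) := by
      rw [← hy, ← hy]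
      exact Finset.sum_congr rfl fun k _ => by rw [hE]
    exact_mod_cast h1
  have hyC : ∀ i, ∑ j, (E i j : ℂ) * (y j : ℂ) = (y i : ℂ) := by
    intro i
    have h1 := congrArg (fun q : ℚ => (q : ℂ)) (hy i)
    push_cast at h1
    exact h1
  have h1 : (y i : ℂ) = ∑ j, a i j * (y j : ℂ) := by
    calc (y i : ℂ) = ∑ j, (E i j : ℂ) * (y j : ℂ) := (hyC i).symm
      _ = ∑ j, (∑ k, a i k * (E k j : ℂ)) * (y j : ℂ) := Finset.sum_congr rfl fun j _ => by rw [haE]
      _ = ∑ j, ∑ k, a i k * ((E k j : ℂ) * (y j : ℂ)) := by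
          refine Finset.sum_congr rfl fun j _ => ?_
          rw [Finset.sum_mul]
          exact Finset.sum_congr rfl fun k _ => by ring
      _ = ∑ k, ∑ j, a i k * ((E k j : ℂ) * (y j : ℂ)) := Finset.sum_comm
      _ = ∑ j, a i j * (y j : ℂ) := Finset.sum_congr rfl fun k _ => by rw [← Finset.mul_sum, hyC]
  have hpg : IsPGroup p (Subgroup.zpowers π) := by
    rintro ⟨σ, hσ⟩
    obtain ⟨n, rfl⟩ := Subgroup.mem_zpowers_iff.1 hσ
    refine ⟨N, Subtype.ext ?_⟩
    show (π ^ n) ^ p ^ N = 1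
    rw [← zpow_natCast, ← zpow_mul, mul_comm, zpow_mul, zpow_natCast, hπ, one_zpow]
  have h2 := hORP p M hS (Subgroup.zpowers π) hpg S (fun j => a i j * (y j : ℂ)) (fun j => (ha i j).mul hS (by
      have h3 := IntAt.of_isIntegral hS (isIntegral_algebraMap (R := ℤ) (A := ℂ) (x := y j))
      simpa using h3)) (fun r x => LXL_inv π (fun j => a i j * (y j : ℂ)) (fun j => by
      show a i (π j) * (y (π j) : ℂ) = a i j * (y j : ℂ)
      rw [haπ, hyπ]) r x)
  have h3 : ∑ᶠ x ∈ MulAction.fixedPoints (Subgroup.zpowers π) S, a i x * (y x : ℂ) = 0 := by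
    refine finsum_mem_eq_zero_of_forall_eq_zero fun x hx => ?_
    have h4 : π x = x := hx ⟨π, Subgroup.mem_zpowers π⟩
    rw [hy0 x h4]
    simp
  rw [h3, sub_zero, finsum_eq_sum_of_fintype, ← h1] at h2
  exact LXL_int hS _ h2

theorem LXL (hORP : ORP_stmt) : LXL_stmt := by
  classical
  intro p M hS S _ _ π N hπ E a hEE hE ha haπ haE l hl
  have hp := hS.pr
  -- all the powers of `p`
  have hpow : ∀ k : ℕ, ∀ y : S → ℤ, (∀ i, ∑ j, E i j * (y j : ℚ) = (y i : ℚ)) → (∀ i, π i = i → y i = 0) → ∀ i, (p : ℤ) ^ k ∣ y i := by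
    intro k
    induction k with
    | zero => intro y _ _ i; simp
    | succ k ih =>
      intro y hy hy0
      have h1 : ∀ i, (p : ℤ) ∣ y i := LXL_dvd hORP hS π N hπ E a hE ha haπ haE y hy hy0
      choose z hz using h1
      have hp0 : (p : ℚ) ≠ 0 := by exact_mod_cast hp.ne_zero
      have h2 := ih z (fun i => by
        have h3 := hy i
        simp only [hz] at h3
        push_cast at h3
        have h4 : ∑ j, E i j * ((p : ℚ) * (z j : ℚ)) = (p : ℚ) * ∑ j, E i j * (z j : ℚ) := by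
          rw [Finset.mul_sum]
          exact Finset.sum_congr rfl fun j _ => by ring
        rw [h4] at h3
        exact mul_left_cancel₀ hp0 h3) (fun i hi => by
        have h3 := hy0 i hi
        rw [hz i] at h3
        exact (mul_eq_zero.1 h3).resolve_left (by exact_mod_cast hp.ne_zero))
      intro i
      rw [hz i, pow_succ, mul_comm ((p : ℤ) ^ k)]
      exact mul_dvd_mul_left _ (h2 i)
  have hzero : ∀ y : S → ℤ, (∀ i, ∑ j, E i j * (y j : ℚ) = (y i : ℚ)) → (∀ i, π i = i → y i = 0) → ∀ i, y i = 0 := by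
    intro y hy hy0 i
    by_contra hne
    have h1 := hpow (y i).natAbs y hy hy0 i
    have h2 : p ^ (y i).natAbs ∣ (y i).natAbs := by
      have h3 := Int.natAbs_dvd_natAbs.2 h1
      rwa [Int.natAbs_pow, Int.natAbs_natCast] at h3
    have h3 := Nat.le_of_dvd (Int.natAbs_pos.2 hne) h2
    exact absurd (Nat.lt_pow_self hp.one_lt) (not_lt.2 h3)
  -- rational vectors
  have hQ : ∀ z : S → ℚ, (∀ i, ∑ j, E i j * z j = z i) → (∀ i, π i = i → z i = 0) → z = 0 := by
    intro z hz hz0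
    obtain ⟨d, hd⟩ : ∃ d : ℕ, d = ∏ i, (z i).den := ⟨_, rfl⟩
    have hd0 : (d : ℚ) ≠ 0 := by
      rw [hd]
      push_cast
      exact Finset.prod_ne_zero_iff.2 fun i _ => by exact_mod_cast (z i).den_ne_zero
    have h1 : ∀ i, ∃ y : ℤ, (y : ℚ) = (d : ℚ) * z i := by
      intro i
      obtain ⟨c, hc⟩ : (z i).den ∣ d := by
        rw [hd]
        exact Finset.dvd_prod_of_mem (fun i => (z i).den) (Finset.mem_univ i)
      refine ⟨c * (z i).num, ?_⟩
      rw [hc]
      push_cast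
      have h2 : ((z i).den : ℚ) * z i = (z i).num := by
        rw [mul_comm]
        exact Rat.mul_den_eq_num _
      rw [mul_right_comm, h2, mul_comm]
    choose y hy using h1
    have h2 := hzero y (fun i => by
      simp only [hy]
      rw [← hz i, Finset.mul_sum]
      exact Finset.sum_congr rfl fun j _ => by ring) (fun i hi => by
      have h3 : (y i : ℚ) = 0 := by rw [hy, hz0 i hi, mul_zero]
      exact_mod_cast h3)
    funext i
    have h3 := hy i
    rw [h2 i, Int.cast_zero] at h3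
    exact (mul_eq_zero.1 h3.symm).resolve_left hd0
  -- the rank
  have h1 : IsIdempotentElem (Matrix.toLin' E) := by
    change Matrix.toLin' E * Matrix.toLin' E = Matrix.toLin' E
    rw [Module.End.mul_eq_comp, ← Matrix.toLin'_mul, hEE]
  have h2 : LinearMap.IsProj (LinearMap.range (Matrix.toLin' E)) (Matrix.toLin' E) := by
    refine ⟨fun x => LinearMap.mem_range_self _ x, ?_⟩
    rintro x ⟨y, rfl⟩
    exact LinearMap.congr_fun h1 y
  have h3 := h2.trace
  rw [Matrix.trace_toLin'_eq, hl] at h3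
  have h4 : l = Module.finrank ℚ (LinearMap.range (Matrix.toLin' E)) := by exact_mod_cast h3
  rw [h4]
  have h5 : Module.finrank ℚ ({i : S // π i = i} → ℚ) = (Finset.univ.filter (fun i => π i = i)).card := by
    rw [Module.finrank_fintype_fun_eq_card, Fintype.card_subtype]
  rw [← h5]
  refine LinearMap.finrank_le_finrank_of_injective
    (f := (LinearMap.funLeft ℚ ℚ (fun i : {i : S // π i = i} => (i : S))).comp (LinearMap.range (Matrix.toLin' E)).subtype) ?_
  rw [← LinearMap.ker_eq_bot, LinearMap.ker_eq_bot']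
  rintro ⟨z, hz⟩ hz1
  apply Subtype.ext
  show z = 0
  refine hQ z (fun i => ?_) (fun i hi => ?_)
  · have h6 := h2.map_id z hz
    have h7 := congrFun h6 i
    rw [Matrix.toLin'_apply] at h7
    exact h7
  · exact congrFun hz1 ⟨i, hi⟩

end Pool.Agent.GB
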