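import Pool.Agent.helper58.ZB.BDT

set_option autoImplicit false

namespace Pool.Agent.GB

open Pool.Agent.helper58.DC Pool.Agent.DI Pool.Agent.GR Pool.Agent.OB Pool.Agent.DR Pool.Agent.FI Pool.Agent.FI3 Pool.Agent.FI4 Pool.Agent.LE Pool.Agent.BR

/-- the commutative case -/
theorem NMT_rk (hRKP : RKP_stmt) {p r : ℕ} (hp : p.Prime) (hr : 1 ≤ r) {G : Type} [Group G] [Finite G] (T : Subgroup G)
    (hcom : ∀ c ∈ T, ∀ d ∈ T, c * d = d * c) (hpg : IsPGroup p T) (hrk : {u | u ∈ T ∧ u ^ p = 1}.ncard ≤ p ^ r) :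
    (∀ R : Subgroup G, R ≤ nz T → ¬ p ∣ (cz T).relIndex R → (cz T).relIndex R < p ^ (r * (r + 1) / 2)) ∧
    ∀ (j : ℕ) (K : Subgroup G), (∀ c : G, c ∈ K ↔ ∃ d ∈ T, d ^ p ^ j = c) → K.relIndex T ≤ p ^ (r * j) := by
  let _ := ALT_inst T hcom
  have hker : Nat.card (powMonoidHom p : T →* T).ker ≤ p ^ r := by
    refine le_trans (le_of_eq ?_) hrk
    have h1 : {u : G | u ∈ T ∧ u ^ p = 1} = (fun d : T => (d : G)) '' ((powMonoidHom p : T →* T).ker : Set T) := by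
      ext u
      constructor
      · rintro ⟨h2, h3⟩
        exact ⟨⟨u, h2⟩, Subtype.ext h3, rfl⟩
      · rintro ⟨d, h2, rfl⟩
        exact ⟨d.2, congrArg (fun d : T => (d : G)) h2⟩
    rw [h1, Set.ncard_image_of_injective _ Subtype.val_injective]
    exact Nat.card_coe_set_eq _
  obtain ⟨h1, h2⟩ := hRKP p r hp hr T hpg hker
  refine ⟨fun R hR hcop => ?_, fun j K hK => ?_⟩
  · have h3 := h1 (ALT_rho T R hR).range (by
      rw [ALT_card]
      exact hcop)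
    rwa [ALT_card] at h3
  · have h4 := h2 j
    have h5 : K.subgroupOf T = (powMonoidHom (p ^ j) : T →* T).range := by
      ext x
      rw [Subgroup.mem_subgroupOf, hK]
      constructor
      · rintro ⟨d, hd, e⟩
        exact ⟨⟨d, hd⟩, Subtype.ext e⟩
      · rintro ⟨d, e⟩
        exact ⟨d, d.2, congrArg (fun d : T => (d : G)) e⟩
    show (K.subgroupOf T).index ≤ _
    rw [h5]
    exact h4

theorem NMT (hRKP : RKP_stmt) : NMT_stmt := by
  classical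
  intro p a r hp hr G _ _ D Z T hpg hZD hZc hcard hZr hT
  have hcomZ : ∀ c ∈ Z, ∀ d ∈ Z, c * d = d * c := fun c hc d hd =>
    ((Subgroup.mem_centralizer_iff.1 (hZc hd)) c (hZD hc))
  have hpgZ : IsPGroup p Z := hpg.to_le hZD
  obtain ⟨-, hZ2⟩ := NMT_rk hRKP hp hr Z hcomZ hpgZ hZr
  -- the index of `Z`
  obtain ⟨b, hb, hba⟩ : ∃ b, Z.relIndex D = p ^ b ∧ b ≤ a := by
    obtain ⟨k, hk⟩ := (haveI : Fact p.Prime := ⟨hp⟩; IsPGroup.iff_card.1 hpg)
    have h2 : Z.relIndex D ∣ p ^ k := by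
      rw [← hk]
      exact Subgroup.index_dvd_card _
    obtain ⟨b, -, hb⟩ := (Nat.dvd_prime_pow hp).1 h2
    refine ⟨b, hb, ?_⟩
    rw [BDT_card hZD, hb, mul_comm] at hcard
    have h3 : p ^ b ≤ p ^ a := Nat.le_of_mul_le_mul_right hcard Nat.card_pos
    exact (Nat.pow_le_pow_iff_right hp.one_lt).1 h3
  have hnor : (Z.subgroupOf D).Normal := by
    constructor
    rintro ⟨z, hz1⟩ hz ⟨g, hg⟩
    have hz2 : z ∈ Z := Subgroup.mem_subgroupOf.1 hz
    refine Subgroup.mem_subgroupOf.2 ?_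
    show g * z * g⁻¹ ∈ Z
    have h1 : g * z = z * g := Subgroup.mem_centralizer_iff.1 (hZc hz2) g hg
    rw [h1, mul_inv_cancel_right]
    exact hz2
  have hpow : ∀ d ∈ D, d ^ p ^ a ∈ Z := by
    intro d hd
    have h1 : (⟨d, hd⟩ : D) ^ (Z.subgroupOf D).index ∈ Z.subgroupOf D := Subgroup.pow_index_mem (Z.subgroupOf D) _
    have h2 : d ^ p ^ b ∈ Z := by
      have h3 := Subgroup.mem_subgroupOf.1 h1
      rw [Subgroup.coe_pow] at h3
      have h4 : (Z.subgroupOf D).index = p ^ b := hb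
      rw [h4] at h3
      exact h3
    have h5 : p ^ a = p ^ b * p ^ (a - b) := by
      rw [← pow_add]
      congr 1
      omega
    rw [h5, pow_mul]
    exact Z.pow_mem h2 _
  have hTZ : T ≤ Z := by
    intro c hc
    obtain ⟨d, hd, rfl⟩ := (hT c).1 hc
    rw [pow_two, pow_mul]
    exact Z.pow_mem (hpow d hd) _
  have hTD : T ≤ D := hTZ.trans hZD
  have hcomT : ∀ c ∈ T, ∀ d ∈ T, c * d = d * c := fun c hc d hd => hcomZ c (hTZ hc) d (hTZ hd)
  have hTr : {u | u ∈ T ∧ u ^ p = 1}.ncard ≤ p ^ r := by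
    refine le_trans (Set.ncard_le_ncard ?_ (Set.toFinite _)) hZr
    rintro u ⟨h1, h2⟩
    exact ⟨hTZ h1, h2⟩
  obtain ⟨hT1, hT2⟩ := NMT_rk hRKP hp hr T hcomT (hpg.to_le hTD) hTr
  refine ⟨BDT_idx hp hpg hZD hZc hcard, ?_, ?_, hT2⟩
  · have h1 := hZ2 (2 * a) (BDT_pw Z hcomZ (p ^ (2 * a))) (fun c => Iff.rfl)
    have h2 : BDT_pw Z hcomZ (p ^ (2 * a)) ≤ Z := by
      rintro _ ⟨d, hd, rfl⟩
      exact Z.pow_mem hd _
    have h3 : BDT_pw Z hcomZ (p ^ (2 * a)) ≤ T := by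
      rintro _ ⟨d, hd, rfl⟩
      refine (hT _).2 ⟨d, hZD hd, ?_⟩
      congr 1
      rw [← pow_mul]
      congr 1
      ring
    have h4 := Subgroup.relIndex_mul_relIndex _ _ _ h2 hZD
    have h5 : T.relIndex D ∣ (BDT_pw Z hcomZ (p ^ (2 * a))).relIndex D := Subgroup.relIndex_dvd_of_le_left _ h3
    have h6 : (BDT_pw Z hcomZ (p ^ (2 * a))).relIndex D ≠ 0 := Subgroup.index_ne_zero_of_finite
    calc T.relIndex D ≤ (BDT_pw Z hcomZ (p ^ (2 * a))).relIndex D := Nat.le_of_dvd (Nat.pos_of_ne_zero h6) h5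
      _ = (BDT_pw Z hcomZ (p ^ (2 * a))).relIndex Z * Z.relIndex D := h4.symm
      _ ≤ p ^ (r * (2 * a)) * p ^ a := Nat.mul_le_mul h1 (by
          rw [hb]
          exact Nat.pow_le_pow_right hp.pos hba)
      _ = p ^ (a + 2 * a * r) := by
          rw [← pow_add]
          congr 1
          ring
  · intro R hR
    refine hT1 R ?_
    have hin : ∀ n ∈ nz D, ∀ t ∈ T, n * t * n⁻¹ ∈ T := by
      intro n hn t ht
      obtain ⟨d, hd, rfl⟩ := (hT t).1 ht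
      refine (hT _).2 ⟨n * d * n⁻¹, (Subgroup.mem_normalizer_iff.1 hn d).1 hd, ?_⟩
      rw [conj_pow]
    intro n hn
    refine Subgroup.mem_normalizer_iff.2 fun t => ⟨fun ht => hin n (hR hn) t ht, fun ht => ?_⟩
    have h1 := hin n⁻¹ ((nz D).inv_mem (hR hn)) _ ht
    have h2 : n⁻¹ * (n * t * n⁻¹) * n⁻¹⁻¹ = t := by group
    rwa [h2] at h1

end Pool.Agent.GB
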