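import Pool.Agent.helper58.BR.AllN
import Pool.Agent.helper59.FI4.AllI
import Pool.Agent.helper22.OB.AllG
import Pool.Agent.helper9.L5.TRE
import Pool.Agent.helper21.BR.SPC
import Pool.Agent.helper90.BR.HGR
import Pool.Agent.helper91.BR.HAX
import Pool.Agent.helper59.GB.DFZ
import Pool.Agent.helper23.ZB.NTB
import Pool.Agent.helper51.ZB.CIT
import Pool.Agent.helper70.ZB.BPT
import Pool.Agent.helper43.ZB.ZLG
import Pool.Agent.helper53.ZB.PPZ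
import Pool.Agent.helper18.ZB.PLT
import Pool.Agent.helper87.ZB.BQT
import Pool.Agent.helper70.ZB.GMB
import Pool.Agent.helper49.ZB.PVB
import Pool.Agent.helper26.ZB.ORB2
import Pool.Agent.helper23.ZB.CTL
import Pool.Agent.helper7.ZB.LXQ
import Pool.Agent.helper40.ZB.LXA
import Pool.Agent.helper31.ZB.LXE
import Pool.Agent.helper23.ZB.LXP
import Pool.Agent.helper8.ZB.LXG
import Pool.Agent.helper7.ZB.TSB
import Pool.Agent.helper7.ZB.BLT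
import Pool.Agent.helper58.ZB.CTT
import Pool.Agent.helper58.ZB.BDT
import Pool.Agent.helper58.ZB.LXL
import Pool.Agent.helper58.ZB.NMT

/-!
# Project ZB (MP_baa4d7_al), block N in the T-form, all primes: all rows

`nNTB`, `nPLT`, `nLXG` (`l(B) ≤ |X|` for EVERY block) and the others have no hypotheses; `nBPT`, `nBQT`, `nCTT` need `BPZ` (block GB), `nBDT`, `nBLP` need `BPZ`, `CLZ` (block GB) and, for the prime `p`, `PS0P p`, `PROP p` (block H).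
-/

set_option autoImplicit false

namespace Pool.Agent.GB.AllN

open Pool.Agent Pool.Agent.helper58.DC Pool.Agent.DI Pool.Agent.GR Pool.Agent.OB Pool.Agent.DR Pool.Agent.FI Pool.Agent.FI3 Pool.Agent.FI4 Pool.Agent.LE Pool.Agent.BR Pool.Agent.GB

theorem nDFZ : DFZ_stmt := GB.DFZ AllA.dSBI AllA.dDCM AllA.dCLS AllA.dSYL
theorem nNTB : NTB_stmt := GB.NTB nDFZ AllA.dEXB AllA.dSBI AllA.dCLS
theorem nCIT : CIT_stmt := GB.CIT nNTB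
theorem nBPT (hBPZ : BPZ_stmt) : BPT_stmt := GB.BPT hBPZ nCIT
theorem nZLG : ZLG_stmt := GB.ZLG AllZ.zZL2 AllZ.zZL3 GR.All.dC3 GR.All.dB2 GR.All.dCVF
theorem nPPZ : PPZ_stmt := GB.PPZ BR.AllN.nPPX AllZ.zZAX AllQ1.qQRS AllQ1.qQCE
theorem nPLT : PLT_stmt := GB.PLT nPPZ nZLG nDFZ
theorem nBQT (hBPZ : BPZ_stmt) : BQT_stmt := GB.BQT (nBPT hBPZ) nPLT nCIT BR.AllN.nPRI BR.AllN.nPDV
theorem nGMB : GMB_stmt := GB.GMB AllB.lGM2
theorem nHAX : HAX_stmt := BR.HAX AllQ1.qQRS AllQ1.qQCE AllQ1.qQEI AllZ.zZAX AllA.dBLE AllQ1.qQEK GR.All.dB2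
theorem nHGR : HGR_stmt := BR.HGR nHAX AllZ.zZAX AllQ1.qQEI AllA.dBLE AllQ1.qQRS AllA.dSTC GR.All.dB2
theorem nPVB : PVB_stmt := GB.PVB nHGR
theorem nORB2 : ORB2_stmt := GB.ORB2
theorem nCTL : CTL_stmt := GB.CTL nORB2 AllB.lPER
theorem nCTT (hBPZ : BPZ_stmt) : CTT_stmt := GB.CTT (nBQT hBPZ) nPVB nCIT nCTL AllB.lPER
theorem nLXQ : LXQ_stmt := GB.LXQ
theorem nLXA : LXA_stmt := GB.LXA (BR.SPC AllQ1.qQEV) GR.All.dPPT GR.All.dB2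
theorem nLXE : LXE_stmt := GB.LXE AllQ1.qQEI GR.All.dEXP GR.All.dB2
theorem nLXP : LXP_stmt := GB.LXP Pool.Agent.OB.AllG.gZT4 AllQ1.qQEI
theorem nLXL : LXL_stmt := GB.LXL AllA.dORP
theorem nLXG : LXG_stmt := GB.LXG nLXQ nLXA nLXE nLXP nLXL AllQ1.qQEI AllZ.zZL3 AllA.dTPR AllA.dBLE
theorem nTSB : TSB_stmt := GB.TSB
theorem nNMT : NMT_stmt := GB.NMT BR.AllN.nRKP
theorem nBDT (hBPZ : BPZ_stmt) (hCLZ : CLZ_stmt) : BDT_stmt :=
  GB.BDT (nCTT hBPZ) nLXG nGMB nCIT hCLZ nTSB nNMT AllA.dDGL AllA.dTPR FI4.AllK.kLLN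
theorem nTRE : Pool.Agent.L5.TRE_stmt := L5.TRE Pool.Agent.FI4I.AllI.iTR1 Pool.Agent.FI4I.AllI.iTR2 Pool.Agent.FI4I.AllI.iTR4
theorem nBLT : BLT_stmt := GB.BLT Pool.Agent.FI4I.AllI.iTR1 Pool.Agent.FI4I.AllI.iTR2 Pool.Agent.FI4I.AllI.iTR3 nTRE AllA.dTPR AllA.dCLS

/-- The bound for the blocks `B` of `G`. -/
theorem nBDP (hBPZ : BPZ_stmt) (hCLZ : CLZ_stmt) (p : ℕ) (hPS0 : PS0P p) (hPRO : PROP p) : BDP p := nBDT hBPZ hCLZ p hPS0 hPRO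

/-- The bound for the blocks of the subgroups `L`. -/
theorem nBLP (hBPZ : BPZ_stmt) (hCLZ : CLZ_stmt) (p : ℕ) (hPS0 : PS0P p) (hPRO : PROP p) : BLP p :=
  nBLT p (nBDP hBPZ hCLZ p hPS0 hPRO)

end Pool.Agent.GB.AllN
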