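import Pool.Agent.helper59.ZB.SpecH

set_option autoImplicit false

namespace Pool.Agent.GB

open Pool.Agent.helper58.DC Pool.Agent.DI Pool.Agent.GR Pool.Agent.OB Pool.Agent.DR Pool.Agent.FI Pool.Agent.FI3 Pool.Agent.FI4 Pool.Agent.LE Pool.Agent.BR

/-- if `d c` is `p`-regular then the `p`-element `d` is a power of `c` -/
theorem HSMT_pow {p : ℕ} (hp : p.Prime) {G : Type} [Group G] [Finite G] {d c : G} (hdc : d * c = c * d) (hd : PEl p d)
    (hv : PReg p (d * c)) : ∃ s : ℕ, d = (c ^ s)⁻¹ := by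
  obtain ⟨k, hk⟩ := hd
  have hcop : (p ^ k).Coprime (orderOf (d * c)) := Nat.Coprime.pow_left k ((Nat.Prime.coprime_iff_not_dvd hp).2 hv)
  obtain ⟨s, hs1, hs2⟩ := Nat.chineseRemainder hcop 1 0
  refine ⟨s, ?_⟩
  have h1 : d ^ s = d := by
    have h2 : orderOf d ∣ p ^ k := orderOf_dvd_of_pow_eq_one hk
    have h3 : d ^ s = d ^ 1 := pow_eq_pow_iff_modEq.2 (hs1.of_dvd h2)
    rwa [pow_one] at h3
  have h2 : (d * c) ^ s = 1 := orderOf_dvd_iff_pow_eq_one.1 ((Nat.modEq_zero_iff_dvd).1 hs2)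
  rw [Commute.mul_pow (show Commute d c from hdc), h1] at h2
  exact eq_inv_of_mul_eq_one_left h2

theorem HSMT_sum {p : ℕ} (hp : p.Prime) {G : Type} [Group G] [Finite G] (D : Subgroup G) (hpg : IsPGroup p D) (e θ₁ : G → ℂ)
    (h0 : ∀ x, x ∉ cz D → θ₁ x = 0) (hQ : ∀ d ∈ D, d ∈ cz D → ∀ v, θ₁ (d * v) = θ₁ v) (he : ∀ x, ¬ PReg p x → e x = 0) :
    ∑ᶠ c ∈ (cz D : Set G), ∑ᶠ d ∈ (D : Set G), θ₁ c⁻¹ * e (d * c)⁻¹ =
      Nat.card (D ⊓ cz D : Subgroup G) * ∑ᶠ x : G, e x * θ₁ x := by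
  classical
  have := Fintype.ofFinite G
  have hset : ∀ (H : Subgroup G) (f : G → ℂ), ∑ᶠ c ∈ (H : Set G), f c = ∑ c : H, f c := by
    intro H f
    rw [← finsum_set_coe_eq_finsum_mem (H : Set G)]
    exact finsum_eq_sum_of_fintype _
  have hset2 : ∀ (H : Subgroup G) (f : G → ℂ), ∑ᶠ c ∈ (H : Set G), f c = ∑ᶠ c : H, f c := by
    intro H f
    rw [← finsum_set_coe_eq_finsum_mem (H : Set G)]
    rfl
  have hdc : ∀ d ∈ D, ∀ c ∈ cz D, d * c = c * d := fun d hd c hc => Subgroup.mem_centralizer_iff.1 hc d hd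
  rw [hset]
  simp only [hset]
  rw [Finset.sum_comm]
  have h1 : ∀ d : D, ∑ᶠ c : cz D, θ₁ (c : G)⁻¹ * e ((d : G) * (c : G))⁻¹ =
      if (d : G) ∈ cz D then ∑ᶠ x : G, e x * θ₁ x else 0 := by
    intro d
    split_ifs with hd
    · have h2 : ∀ c : cz D, θ₁ (c : G)⁻¹ * e ((d : G) * (c : G))⁻¹ =
          (fun v : cz D => θ₁ (v : G)⁻¹ * e (v : G)⁻¹) ((Equiv.mulLeft (⟨d, hd⟩ : cz D)) c) := by
        intro c
        show θ₁ (c : G)⁻¹ * e ((d : G) * (c : G))⁻¹ = θ₁ ((d : G) * (c : G))⁻¹ * e ((d : G) * (c : G))⁻¹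
        congr 1
        have h3 := hQ d d.2 hd ((d : G) * (c : G))⁻¹
        rw [← h3]
        congr 1
        rw [hdc d d.2 c c.2]
        group
      rw [finsum_congr h2, finsum_comp_equiv (Equiv.mulLeft (⟨d, hd⟩ : cz D)) (f := fun v : cz D => θ₁ (v : G)⁻¹ * e (v : G)⁻¹)]
      have h4 : ∑ᶠ v : cz D, θ₁ (v : G)⁻¹ * e (v : G)⁻¹ = ∑ᶠ v : cz D, e (v : G) * θ₁ (v : G) := by
        rw [← finsum_comp_equiv (Equiv.inv (cz D)) (f := fun v : cz D => e (v : G) * θ₁ (v : G))]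
        refine finsum_congr fun v => ?_
        show θ₁ (v : G)⁻¹ * e (v : G)⁻¹ = e (v : G)⁻¹ * θ₁ (v : G)⁻¹
        ring
      rw [h4, ← hset2 (cz D) (fun v => e v * θ₁ v), finsum_mem_def]
      refine finsum_congr fun x => ?_
      by_cases hx : x ∈ (cz D : Set G)
      · rw [Set.indicator_of_mem hx]
      · rw [Set.indicator_of_notMem hx, h0 x hx, mul_zero]
    · have h8 : ∀ c : cz D, θ₁ (c : G)⁻¹ * e ((d : G) * (c : G))⁻¹ = 0 := by
        intro c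
        have h5 : ¬ PReg p ((d : G) * (c : G))⁻¹ := by
          intro h6
          have h7 : PReg p ((d : G) * (c : G)) := by
            unfold PReg at h6 ⊢
            rwa [orderOf_inv] at h6
          obtain ⟨k, hk⟩ := hpg d
          obtain ⟨s, hs⟩ := HSMT_pow hp (hdc d d.2 c c.2) ⟨k, congrArg (fun d : D => (d : G)) hk⟩ h7
          apply hd
          rw [hs]
          exact (cz D).inv_mem ((cz D).pow_mem c.2 s)
        rw [he _ h5, mul_zero]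
      rw [finsum_congr h8, finsum_zero]
  rw [Finset.sum_congr rfl fun d _ => (finsum_eq_sum_of_fintype _).symm.trans (h1 d), ← Finset.sum_filter, Finset.sum_const,
    nsmul_eq_mul]
  congr 2
  rw [← Fintype.card_subtype, ← Nat.card_eq_fintype_card]
  exact Nat.card_congr
    { toFun := fun d => (⟨d.1.1, d.1.2, d.2⟩ : (D ⊓ cz D : Subgroup G))
      invFun := fun z => ⟨⟨z.1, z.2.1⟩, z.2.2⟩
      left_inv := fun _ => rfl
      right_inv := fun _ => rfl }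

theorem HSMT (hHDT : HDT_stmt) (hHTC : HTC_stmt) (hBLE : BLE_stmt) (hSBI : SBI_stmt) (hTPR : Pool.Agent.FI.TPR_stmt)
    (hQCE : QCE_stmt) (hB2 : B2_stmt) : HSMT_stmt := by
  classical
  intro p M hS G _ _ D x θ χ rt θ₁ hθ₁ hD1 hin
  have hp := hS.pr
  have := Fintype.ofFinite G
  obtain ⟨hT1, hT2, -, -, -⟩ := hTPR p M hS G
  obtain ⟨y, hdl⟩ := hHDT p M hS G D x θ χ rt
  have hZ : cz D ≤ cz (D ⊓ cz D) := Subgroup.centralizer_le (show ((D ⊓ cz D : Subgroup G) : Set G) ⊆ (D : Set G) from fun _ h => h.1)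
  obtain ⟨-, n, k, hn1, hn2, hk⟩ := hHTC p M hS G (cz D) (D ⊓ cz D) y hZ θ rt.th hdl θ₁ hθ₁
  obtain ⟨hfinC, hB⟩ := hB2 G (cz D)
  obtain ⟨⟨n₀, hn0, hn0', -⟩, -, hint, hz, -⟩ := hB θ₁ hθ₁.1
  have hθ0 : ∀ x, x ∉ cz D → θ x = 0 := (hB θ rt.th).2.2.2.1
  have hn1' : θ₁ 1 ≠ 0 := by
    rw [hn0']
    exact_mod_cast hn0.ne'
  -- the idempotent
  have hχT : χ ∈ Bl M (⊤ : Subgroup G) θ := by
    refine ⟨?_, ((hT2 θ χ).1 rt.ind).symm⟩
    rw [hT1]
    exact rt.chi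
  obtain ⟨-, hCF, hIA, -, hone, -, hreg, hBq⟩ := hBLE p M hS G (⊤ : Subgroup G) ⊤ le_rfl θ
  rw [hBq] at hCF hIA hone hreg
  have hsb : SB M (⊤ : Subgroup G) θ₁ χ :=
    (TRNb le_top hz hθ0 hθ₁.2).trans ((hT2 θ χ).1 rt.ind)
  have hd := ((hSBI p M hS G (⊤ : Subgroup G) θ₁ χ hsb).1 _ hCF hIA)
  rw [hone χ hχT] at hd
  obtain ⟨e, hedef⟩ : ∃ e, e = eS (⊤ : Subgroup G) (Bl M (⊤ : Subgroup G) θ) := ⟨_, rfl⟩
  rw [← hedef] at hd hCF hIA hone hreg
  have hIe : IntAt M (cc θ₁ e) := by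
    have h1 := (hd.intAt).add hS (IntAt.one hS)
    rwa [sub_add_cancel] at h1
  have hne : ¬ InM M (cc θ₁ e) := by
    intro h1
    have h2 := h1.sub hS hd
    rw [sub_sub_cancel] at h2
    exact InM.not_one hS h2
  have hfin : (Bl M (⊤ : Subgroup G) θ).Finite := (hB2 G (⊤ : Subgroup G)).1.subset fun ψ h => h.1
  -- the sum
  have hQ : ∀ d ∈ D, d ∈ cz D → ∀ v, θ₁ (d * v) = θ₁ v := by
    intro d hd hdc v
    have hcen : Cen (cz D) d := by
      intro t ht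
      have h1 : d * t = t * d := Subgroup.mem_centralizer_iff.1 ht d hd
      exact h1.symm
    have h1 := (hQCE G (cz D) d hdc hcen θ₁ hθ₁.1).1 v
    rw [hD1 d hd hdc, mul_comm (θ₁ 1)] at h1
    exact mul_right_cancel₀ hn1' h1
  have hset : ∀ (H : Subgroup G) (f : G → ℂ), ∑ᶠ c ∈ (H : Set G), f c = ∑ c ∈ Finset.univ.filter (fun c => c ∈ H), f c := by
    intro H f
    rw [finsum_mem_eq_finite_toFinset_sum _ (Set.toFinite (H : Set G))]
    refine Finset.sum_congr ?_ fun _ _ => rfl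
    ext c
    rw [Set.Finite.mem_toFinset, Finset.mem_filter]
    exact ⟨fun h => ⟨Finset.mem_univ _, h⟩, fun h => h.2⟩
  have hee : ∀ g : G, e g⁻¹ = (∑ ψ ∈ hfin.toFinset, ψ 1 * ψ g) / Nat.card G := by
    intro g
    rw [hedef]
    unfold eS
    rw [finsum_mem_eq_finite_toFinset_sum _ hfin, Subgroup.card_top]
    simp only [inv_inv]
  have hmain : ∑ᶠ ψ ∈ Bl M (⊤ : Subgroup G) θ, mzT D θ₁ ψ * ((Nat.card D : ℂ) * ψ 1 / Nat.card G) =
      (Nat.card (D ⊓ cz D : Subgroup G) * θ₁ 1 / Nat.card (cz D)) * cc θ₁ e := by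
    have h1 := HSMT_sum hp D rt.dfa.pgrp e θ₁ hz hQ hreg
    have hDne : (Nat.card D : ℂ) ≠ 0 := by exact_mod_cast (Nat.card_pos (α := D)).ne'
    have h2 : ∑ᶠ x : G, e x * θ₁ x = θ₁ 1 * cc θ₁ e := by
      unfold cc
      field_simp
    rw [h2] at h1
    have h3 : ∑ᶠ ψ ∈ Bl M (⊤ : Subgroup G) θ, mzT D θ₁ ψ * ((Nat.card D : ℂ) * ψ 1 / Nat.card G) =
        (∑ᶠ c ∈ (cz D : Set G), ∑ᶠ d ∈ (D : Set G), θ₁ c⁻¹ * e (d * c)⁻¹) / Nat.card (cz D) := by
      rw [finsum_mem_eq_finite_toFinset_sum _ hfin, hset]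
      simp only [hset, hee]
      unfold mzT
      simp only [hset]
      rw [Finset.sum_div]
      have h4 : ∀ ψ ∈ hfin.toFinset, (∑ c ∈ Finset.univ.filter (fun c => c ∈ cz D),
          (∑ d ∈ Finset.univ.filter (fun d => d ∈ D), ψ (d * c)) * θ₁ c⁻¹) / (Nat.card D * Nat.card (cz D)) *
            ((Nat.card D : ℂ) * ψ 1 / Nat.card G) =
          ∑ c ∈ Finset.univ.filter (fun c => c ∈ cz D), ∑ d ∈ Finset.univ.filter (fun d => d ∈ D),
            θ₁ c⁻¹ * (ψ 1 * ψ (d * c) / Nat.card G) / Nat.card (cz D) := by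
        intro ψ _
        rw [Finset.sum_div, Finset.sum_mul]
        refine Finset.sum_congr rfl fun c _ => ?_
        rw [Finset.sum_mul, Finset.sum_div, Finset.sum_mul]
        refine Finset.sum_congr rfl fun d _ => ?_
        field_simp
      rw [Finset.sum_congr rfl h4, Finset.sum_comm]
      refine Finset.sum_congr rfl fun c _ => ?_
      rw [Finset.sum_comm, Finset.sum_div]
      refine Finset.sum_congr rfl fun d _ => ?_
      rw [← Finset.sum_div, ← Finset.mul_sum, Finset.sum_div]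
    rw [h3, h1]
    ring
  rw [hmain] at hin
  -- the first factor
  have hc0 : (Nat.card (cz D) : ℂ) ≠ 0 := by exact_mod_cast (Nat.card_pos (α := cz D)).ne'
  have hk0 : (k : ℂ) ≠ 0 := by
    intro h
    have h1 : k = 0 := by exact_mod_cast h
    rw [h1] at hk
    exact hk (dvd_zero p)
  have hfac : (Nat.card (D ⊓ cz D : Subgroup G) : ℂ) * θ₁ 1 / Nat.card (cz D) = (k : ℂ)⁻¹ := by
    rw [hn1, ← hn2] at *
    push_cast at hc0 ⊢
    have h1 : (n : ℂ) ≠ 0 := fun h => hc0 (by rw [h]; ring)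
    have h2 : (Nat.card (D ⊓ cz D : Subgroup G) : ℂ) ≠ 0 := fun h => hc0 (by rw [h]; ring)
    field_simp
  rw [hfac] at hin
  have hkM : ¬ InM M (k : ℂ) := fun h => hk ((InM.natCast hS k).1 h)
  have hki : IntAt M (k : ℂ)⁻¹ := IntAt.inv hS (IntAt.natCast hS k) hkM
  rcases InM.or hS hki hIe hin with h1 | h1
  · apply InM.not_one hS
    have h2 := InM.mul_right hS h1 (IntAt.natCast hS k)
    rwa [inv_mul_cancel₀ hk0] at h2
  · exact hne h1

end Pool.Agent.GB
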